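import Pool.Agent.R558.System

/-!
# The four reduction steps
-/

open Polynomial

namespace Pool.Agent.R558

section

variable {F L : Type*} [Field F] [Fintype F] [Field L] [Algebra F L] [IsAlgClosed L]
variable {ι κ : Type*} [DecidableEq ι] [Fintype κ] [DecidableEq κ]

lemma q_pos : 0 < Fintype.card F := Fintype.card_pos

/-- all spaces have the first coordinate zero -/
theorem caseA {K : ℕ} {I : Finset ι} {S : ι → Finset κ} {τ : ι → ℕ} (hτ : ∀ i ∈ I, 1 ≤ τ i)
    {g' : κ → L} (h : Inj (Fintype.card F) K I S (fun i => τ i - 1) g') :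
    ∃ g : κ → L, Inj (Fintype.card F) (K + 1) I S τ g := by
  choose g hg using fun j => IsAlgClosed.exists_pow_nat_eq (g' j) (q_pos (F := F))
  refine ⟨g, fun a h1 h2 h3 => ?_⟩
  have h0 : ∀ i ∈ I, a i 0 = 0 := fun i hi => h1 i hi 0 (hτ i hi)
  have key := h (fun i t => a i (t + 1)) ?_ ?_ ?_
  · intro i hi t ht
    rcases t with _ | t
    · exact h0 i hi
    · exact key i hi t (by omega)
  · intro i hi t ht
    have ht' : t < τ i - 1 := ht
    apply h1 i hi
    have := hτ i hi
    omega
  · intro i hi j hj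
    have h4 := h2 i hi j hj
    rw [Finset.sum_range_succ', h0 i hi, zero_mul, add_zero] at h4
    rw [← h4]
    refine Finset.sum_congr rfl fun t _ => ?_
    rw [← hg j, ← pow_mul, pow_succ, mul_comm (Fintype.card F)]
  · intro t ht
    exact h3 (t + 1) (by omega)

/-- Abel summation -/
lemma abel_sum (a x : ℕ → L) (K : ℕ) :
    ∑ t ∈ Finset.range K, (-∑ s ∈ Finset.range (t + 1), a s) * (x (t + 1) - x t) =
      ∑ t ∈ Finset.range (K + 1), a t * x t - (∑ s ∈ Finset.range (K + 1), a s) * x K := by
  induction K with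
  | zero => simp
  | succ K ih =>
    rw [Finset.sum_range_succ, ih, Finset.sum_range_succ _ (K + 1),
      Finset.sum_range_succ (fun s => a s) (K + 1)]
    ring

lemma frob_sub (x : L) (t : ℕ) : (x ^ Fintype.card F - x) ^ (Fintype.card F ^ t) =
    x ^ (Fintype.card F ^ (t + 1)) - x ^ (Fintype.card F ^ t) := by
  rw [← fr_apply (F := F), map_sub, fr_apply, fr_apply, ← pow_mul, pow_succ,
    mul_comm (Fintype.card F)]

/-- a common zero -/
theorem caseB {K : ℕ} {I : Finset ι} {S : ι → Finset κ} {τ : ι → ℕ} (j : κ)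
    (hj : ∀ i ∈ I, j ∈ S i) {g' : κ → L}
    (h : Inj (Fintype.card F) K I (fun i => (S i).erase j) τ g') :
    ∃ g : κ → L, Inj (Fintype.card F) (K + 1) I S τ g := by
  have hq : 1 < Fintype.card F := one_lt_q
  have hroot : ∀ y : L, ∃ x : L, x ^ Fintype.card F - x = y := by
    intro y
    have hdeg : (X ^ Fintype.card F - (X + C y) : L[X]).degree ≠ 0 := by
      have h1 : (X + C y : L[X]).degree < Fintype.card F := by
        rw [degree_X_add_C]
        exact_mod_cast hq
      rw [degree_sub_eq_left_of_degree_lt]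
      · rw [degree_X_pow]
        exact_mod_cast (by omega : Fintype.card F ≠ 0)
      · rw [degree_X_pow]
        exact h1
    obtain ⟨x, hx⟩ := IsAlgClosed.exists_root _ hdeg
    refine ⟨x, ?_⟩
    rw [IsRoot.def] at hx
    simp only [eval_sub, eval_pow, eval_X, eval_add, eval_C] at hx
    linear_combination hx
  choose ρ hρ using hroot
  refine ⟨fun l => if l = j then 1 else ρ (g' l), fun a h1 h2 h3 => ?_⟩
  have hsum : ∀ i ∈ I, ∑ s ∈ Finset.range (K + 1), a i s = 0 := by
    intro i hi
    have h4 := h2 i hi j (hj i hi)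
    simpa using h4
  have key := h (fun i t => -∑ s ∈ Finset.range (t + 1), a i s) ?_ ?_ ?_
  · have hA : ∀ i ∈ I, ∀ t ≤ K, ∑ s ∈ Finset.range (t + 1), a i s = 0 := by
      intro i hi t ht
      rcases Nat.lt_or_ge t K with h5 | h5
      · have := key i hi t h5
        exact neg_eq_zero.mp this
      · have : t = K := le_antisymm ht h5
        rw [this]
        exact hsum i hi
    intro i hi t ht
    rcases t with _ | t
    · have := hA i hi 0 (by omega)
      simpa using this
    · have h5 := hA i hi (t + 1) (by omega)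
      have h6 := hA i hi t (by omega)
      rw [Finset.sum_range_succ, h6, zero_add] at h5
      exact h5
  · intro i hi t ht
    simp only [neg_eq_zero]
    apply Finset.sum_eq_zero
    intro s hs
    rw [Finset.mem_range] at hs
    exact h1 i hi s (by omega)
  · intro i hi l hl
    rw [Finset.mem_erase] at hl
    have h4 := h2 i hi l hl.2
    simp only [hl.1, if_false] at h4
    have h5 := abel_sum (a i) (fun t => ρ (g' l) ^ (Fintype.card F ^ t)) K
    rw [hsum i hi, h4] at h5
    simp only [zero_mul, sub_zero] at h5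
    rw [← h5]
    refine Finset.sum_congr rfl fun t _ => ?_
    rw [← frob_sub, hρ]
  · intro t ht
    rw [Finset.sum_neg_distrib, neg_eq_zero, Finset.sum_comm]
    apply Finset.sum_eq_zero
    intro s hs
    rw [Finset.mem_range] at hs
    exact h3 s (by omega)

omit [IsAlgClosed L] [Fintype κ] in
/-- merging a subfamily -/
theorem caseC [Fintype κ] {q k : ℕ} {I : Finset ι} {S : ι → Finset κ} {τ : ι → ℕ} {g : κ → L}
    {Ω : Finset ι} (hΩI : Ω ⊆ I) {i0 : ι} (hi0 : i0 ∈ Ω) {m : ℕ} (hm : ∀ i ∈ Ω, m ≤ τ i)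
    (hΩ : Inj q k Ω S τ g)
    (hI : Inj q k (insert i0 (I \ Ω)) (Function.update S i0 (cap S Ω)) (Function.update τ i0 m) g) :
    Inj q k I S τ g := by
  intro a h1 h2 h3
  have hne : ∀ i ∈ I \ Ω, i ≠ i0 := by
    rintro i hi rfl
    exact (Finset.mem_sdiff.mp hi).2 hi0
  have hni : i0 ∉ I \ Ω := fun h => hne i0 h rfl
  let b : ι → ℕ → L := fun i t => if i = i0 then ∑ i' ∈ Ω, a i' t else a i t
  have hb0 : ∀ t, b i0 t = ∑ i' ∈ Ω, a i' t := fun t => if_pos rfl
  have hb1 : ∀ i ∈ I \ Ω, ∀ t, b i t = a i t := fun i hi t => if_neg (hne i hi)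
  have key := hI b ?_ ?_ ?_
  · have h4 : ∀ i ∈ Ω, ∀ t < k, a i t = 0 := by
      apply hΩ a (fun i hi => h1 i (hΩI hi)) (fun i hi => h2 i (hΩI hi))
      intro t ht
      rw [← hb0]
      exact key i0 (Finset.mem_insert_self _ _) t ht
    intro i hi t ht
    by_cases hiΩ : i ∈ Ω
    · exact h4 i hiΩ t ht
    · have hi' : i ∈ I \ Ω := Finset.mem_sdiff.mpr ⟨hi, hiΩ⟩
      rw [← hb1 i hi']
      exact key i (Finset.mem_insert_of_mem hi') t ht
  · intro i hi t ht
    rcases Finset.mem_insert.mp hi with rfl | hi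
    · rw [Function.update_self] at ht
      rw [hb0]
      apply Finset.sum_eq_zero
      intro i' hi'
      exact h1 i' (hΩI hi') t (lt_of_lt_of_le ht (hm i' hi'))
    · rw [Function.update_of_ne (hne i hi)] at ht
      rw [hb1 i hi]
      exact h1 i (Finset.mem_sdiff.mp hi).1 t ht
  · intro i hi j hj
    rcases Finset.mem_insert.mp hi with rfl | hi
    · rw [Function.update_self] at hj
      have hj' : ∀ i' ∈ Ω, j ∈ S i' := (Finset.mem_filter.mp hj).2
      simp only [hb0, Finset.sum_mul]
      rw [Finset.sum_comm]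
      apply Finset.sum_eq_zero
      intro i' hi'
      exact h2 i' (hΩI hi') j (hj' i' hi')
    · rw [Function.update_of_ne (hne i hi)] at hj
      simp only [hb1 i hi]
      exact h2 i (Finset.mem_sdiff.mp hi).1 j hj
  · intro t ht
    rw [Finset.sum_insert hni, hb0, Finset.sum_congr rfl (fun i hi => hb1 i hi t), add_comm,
      Finset.sum_sdiff hΩI]
    exact h3 t ht

omit [IsAlgClosed L] [Algebra F L] [Fintype F] [Field F] [Fintype κ] [DecidableEq κ] in
lemma sum_row {R : Type*} [CommRing R] {k : ℕ} {I : Finset ι} (i : I) (P : Fin k → Prop)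
    [DecidablePred P] (r : Fin k → R) (v : I × Fin k → R) :
    ∑ w : I × Fin k, (if i = w.1 ∧ P w.2 then r w.2 else 0) * v w =
      ∑ t, (if P t then r t else 0) * v (i, t) := by
  rw [Fintype.sum_prod_type, Finset.sum_eq_single i]
  · simp
  · intro b _ hb
    apply Finset.sum_eq_zero
    intro t _
    rw [if_neg, zero_mul]
    rintro ⟨h, -⟩
    exact hb h.symm
  · simp

/-- the matrix for the specialization step -/
noncomputable def specMat (q k : ℕ) (I : Finset ι) (S : ι → Finset κ) (τ : ι → ℕ) (j : κ)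
    (g' : κ → L) :
    Matrix ((I × Fin k) ⊕ ((I × κ) ⊕ (I ⊕ Fin k))) (I × Fin k) L[X] := fun w v =>
  match w with
  | Sum.inl (i, t) => if i = v.1 ∧ (t = v.2 ∧ (t : ℕ) < τ i) then 1 else 0
  | Sum.inr (Sum.inl (i, l)) =>
      if i = v.1 ∧ (l ∈ S i ∧ l ≠ j) then C (g' l ^ (q ^ (v.2 : ℕ))) else 0
  | Sum.inr (Sum.inr (Sum.inl i)) =>
      if i = v.1 ∧ (j ∈ S i ∧ τ i ≤ (v.2 : ℕ)) then X ^ (q ^ (v.2 : ℕ) - q ^ (τ i)) else 0
  | Sum.inr (Sum.inr (Sum.inr t)) => if t = v.2 then 1 else 0

omit [IsAlgClosed L] [Algebra F L] [Fintype F] [Field F] in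
/-- what it means that a vector is in the kernel of the specialized matrix -/
theorem spec_ker {q k : ℕ} {I : Finset ι} {S : ι → Finset κ} {τ : ι → ℕ} {j : κ}
    {g' : κ → L} (y : L) (v : I × Fin k → L) :
    ((specMat q k I S τ j g').map (aeval y : L[X] →ₐ[L] L)).mulVec v = 0 ↔
      (∀ (i : I) (t : Fin k), (t : ℕ) < τ i → v (i, t) = 0) ∧
      (∀ (i : I) (l : κ), l ∈ S i → l ≠ j → ∑ t : Fin k, v (i, t) * g' l ^ (q ^ (t : ℕ)) = 0) ∧
      (∀ i : I, j ∈ S i → ∑ t : Fin k, (if τ i ≤ (t : ℕ) then
        v (i, t) * y ^ (q ^ (t : ℕ) - q ^ (τ i)) else 0) = 0) ∧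
      (∀ t : Fin k, ∑ i : I, v (i, t) = 0) := by
  have e1 : ∀ (i : I) (t : Fin k),
      ((specMat q k I S τ j g').map (aeval y : L[X] →ₐ[L] L)).mulVec v (Sum.inl (i, t)) =
      if (t : ℕ) < τ i then v (i, t) else 0 := by
    intro i t
    have : ∀ w : I × Fin k, ((specMat q k I S τ j g').map (aeval y : L[X] →ₐ[L] L))
        (Sum.inl (i, t)) w = if i = w.1 ∧ (t = w.2 ∧ (t : ℕ) < τ i) then (1 : L) else 0 := by
      intro w
      simp only [Matrix.map_apply, specMat]
      split_ifs <;> simp
    simp only [Matrix.mulVec, dotProduct, this]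
    rw [sum_row i (fun s => t = s ∧ (t : ℕ) < τ i) (fun _ => 1), Finset.sum_eq_single t]
    · by_cases h : (t : ℕ) < τ i
      · simp [h]
      · simp [h]
    · intro b _ hb
      rw [if_neg, zero_mul]
      rintro ⟨h, -⟩
      exact hb h.symm
    · simp
  have e2 : ∀ (i : I) (l : κ),
      ((specMat q k I S τ j g').map (aeval y : L[X] →ₐ[L] L)).mulVec v (Sum.inr (Sum.inl (i, l))) =
      if l ∈ S i ∧ l ≠ j then ∑ t : Fin k, v (i, t) * g' l ^ (q ^ (t : ℕ)) else 0 := by
    intro i l
    have : ∀ w : I × Fin k, ((specMat q k I S τ j g').map (aeval y : L[X] →ₐ[L] L))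
        (Sum.inr (Sum.inl (i, l))) w =
        if i = w.1 ∧ (l ∈ S i ∧ l ≠ j) then g' l ^ (q ^ (w.2 : ℕ)) else 0 := by
      intro w
      simp only [Matrix.map_apply, specMat]
      split_ifs <;> simp
    simp only [Matrix.mulVec, dotProduct, this]
    rw [sum_row i (fun s => l ∈ S i ∧ l ≠ j) (fun t => g' l ^ (q ^ (t : ℕ)))]
    split_ifs with h
    · refine Finset.sum_congr rfl fun t _ => mul_comm _ _
    · simp
  have e3 : ∀ i : I,
      ((specMat q k I S τ j g').map (aeval y : L[X] →ₐ[L] L)).mulVec v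
        (Sum.inr (Sum.inr (Sum.inl i))) =
      if j ∈ S i then ∑ t : Fin k, (if τ i ≤ (t : ℕ) then
        v (i, t) * y ^ (q ^ (t : ℕ) - q ^ (τ i)) else 0) else 0 := by
    intro i
    have : ∀ w : I × Fin k, ((specMat q k I S τ j g').map (aeval y : L[X] →ₐ[L] L))
        (Sum.inr (Sum.inr (Sum.inl i))) w =
        if i = w.1 ∧ (j ∈ S i ∧ τ i ≤ (w.2 : ℕ)) then y ^ (q ^ (w.2 : ℕ) - q ^ (τ i)) else 0 := by
      intro w
      simp only [Matrix.map_apply, specMat]
      split_ifs <;> simp
    simp only [Matrix.mulVec, dotProduct, this]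
    rw [sum_row i (fun s => j ∈ S i ∧ τ i ≤ (s : ℕ)) (fun t => y ^ (q ^ (t : ℕ) - q ^ (τ i)))]
    split_ifs with h
    · refine Finset.sum_congr rfl fun t _ => ?_
      by_cases h5 : τ i ≤ (t : ℕ)
      · simp [h, h5, mul_comm]
      · simp [h5]
    · simp [h]
  have e4 : ∀ t : Fin k,
      ((specMat q k I S τ j g').map (aeval y : L[X] →ₐ[L] L)).mulVec v
        (Sum.inr (Sum.inr (Sum.inr t))) = ∑ i : I, v (i, t) := by
    intro t
    have : ∀ w : I × Fin k, ((specMat q k I S τ j g').map (aeval y : L[X] →ₐ[L] L))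
        (Sum.inr (Sum.inr (Sum.inr t))) w = if t = w.2 then 1 else 0 := by
      intro w
      simp only [Matrix.map_apply, specMat]
      split_ifs <;> simp
    simp only [Matrix.mulVec, dotProduct, this]
    rw [Fintype.sum_prod_type]
    refine Finset.sum_congr rfl fun i _ => ?_
    rw [Finset.sum_eq_single t]
    · simp
    · intro b _ hb
      rw [if_neg (Ne.symm hb), zero_mul]
    · simp
  constructor
  · intro h
    refine ⟨fun i t ht => ?_, fun i l hl hlj => ?_, fun i hi => ?_, fun t => ?_⟩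
    · have := congrFun h (Sum.inl (i, t))
      rw [e1, if_pos ht] at this
      exact this
    · have := congrFun h (Sum.inr (Sum.inl (i, l)))
      rw [e2, if_pos ⟨hl, hlj⟩] at this
      exact this
    · have := congrFun h (Sum.inr (Sum.inr (Sum.inl i)))
      rw [e3, if_pos hi] at this
      exact this
    · have := congrFun h (Sum.inr (Sum.inr (Sum.inr t)))
      rw [e4] at this
      exact this
  · rintro ⟨h1, h2, h3, h4⟩
    funext w
    rcases w with ⟨i, t⟩ | ⟨i, l⟩ | i | t
    · rw [e1]
      split_ifs with h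
      · exact h1 i t h
      · rfl
    · rw [e2]
      split_ifs with h
      · exact h2 i l h.1 h.2
      · rfl
    · rw [e3]
      split_ifs with h
      · exact h3 i h
      · rfl
    · rw [e4]
      exact h4 t

/-- specialization of one point to zero -/
theorem caseD {k : ℕ} {I : Finset ι} {S : ι → Finset κ} {τ : ι → ℕ} (j : κ)
    {g' : κ → L} {q : ℕ} (hq : 1 < q)
    (h : Inj q k I (fun i => (S i).erase j) (fun i => if j ∈ S i then τ i + 1 else τ i) g') :
    ∃ g : κ → L, Inj q k I S τ g := by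
  classical
  have h0 : ∀ v, ((specMat q k I S τ j g').map (aeval (0 : L) : L[X] →ₐ[L] L)).mulVec v = 0 →
      v = 0 := by
    intro v hv
    obtain ⟨h1, h2, h3, h4⟩ := (spec_ker 0 v).mp hv
    let a : ι → ℕ → L := fun i t =>
      if h : i ∈ I ∧ t < k then v (⟨i, h.1⟩, ⟨t, h.2⟩) else 0
    have ha : ∀ (i : I) (t : Fin k), a i t = v (i, t) := by
      intro i t
      simp only [a]
      rw [dif_pos ⟨i.2, t.2⟩]
    have ha0 : ∀ i t, ¬ t < k → a i t = 0 := by
      intro i t ht
      simp only [a]
      rw [dif_neg]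
      rintro ⟨-, h5⟩
      exact ht h5
    have key := h a ?_ ?_ ?_
    · funext ⟨i, t⟩
      rw [← ha]
      exact key i i.2 t t.2
    · intro i hi t ht
      by_cases htk : t < k
      · rw [ha ⟨i, hi⟩ ⟨t, htk⟩]
        by_cases hj : j ∈ S i
        · simp only [hj, if_true] at ht
          rcases Nat.lt_or_ge t (τ i) with h5 | h5
          · exact h1 ⟨i, hi⟩ ⟨t, htk⟩ h5
          · have h6 : t = τ i := by omega
            have h7 := h3 ⟨i, hi⟩ hj
            rw [Finset.sum_eq_single ⟨t, htk⟩] at h7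
            · simp only [h6, le_refl, if_true, Nat.sub_self, pow_zero, mul_one] at h7
              rw [← h7]
              congr 2
              exact Fin.ext h6
            · intro b _ hb
              split_ifs with h8
              · rw [zero_pow, mul_zero]
                have h8' : τ i ≤ (b : ℕ) := h8
                have h9 : τ i < (b : ℕ) := by
                  rcases Nat.lt_or_ge (τ i) (b : ℕ) with h10 | h10
                  · exact h10
                  · exact absurd (Fin.ext (show (b : ℕ) = t by omega)) hb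
                have h11 := Nat.pow_lt_pow_right hq h9
                change q ^ (b : ℕ) - q ^ τ i ≠ 0
                omega
              · rfl
            · simp
        · simp only [hj, if_false] at ht
          exact h1 ⟨i, hi⟩ ⟨t, htk⟩ ht
      · exact ha0 i t htk
    · intro i hi l hl
      rw [Finset.mem_erase] at hl
      rw [Finset.sum_range]
      rw [← h2 ⟨i, hi⟩ l hl.2 hl.1]
      refine Finset.sum_congr rfl fun t _ => ?_
      rw [ha ⟨i, hi⟩ t]
    · intro t ht
      rw [← Finset.sum_coe_sort, ← h4 ⟨t, ht⟩]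
      refine Finset.sum_congr rfl fun i _ => ?_
      exact ha i ⟨t, ht⟩
  obtain ⟨r, hr0, hr⟩ := open_inj (specMat q k I S τ j g') (aeval (0 : L)) h0
  obtain ⟨y, hy⟩ : ∃ y : L, (X * r).eval y ≠ 0 := by
    by_contra hcon
    push Not at hcon
    have h1 : X * r = 0 := by
      apply Polynomial.funext
      intro y
      rw [hcon y, eval_zero]
    rcases mul_eq_zero.mp h1 with h2 | h2
    · exact X_ne_zero h2
    · rw [h2] at hr0
      simp at hr0
  rw [eval_mul, eval_X] at hy
  have hy0 : y ≠ 0 := left_ne_zero_of_mul hy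
  have hyr : aeval y r ≠ 0 := by
    rw [coe_aeval_eq_eval]
    exact right_ne_zero_of_mul hy
  have hinj := hr (aeval y) hyr
  refine ⟨Function.update g' j y, fun a h1 h2 h3 => ?_⟩
  have key := hinj (fun v => a v.1 v.2) ?_
  · intro i hi t ht
    exact congrFun key (⟨i, hi⟩, ⟨t, ht⟩)
  · rw [spec_ker]
    refine ⟨fun i t ht => h1 i i.2 t ht, fun i l hl hlj => ?_, fun i hij => ?_, fun t => ?_⟩
    · have h4 := h2 i i.2 l hl
      rw [Function.update_of_ne hlj, Finset.sum_range] at h4
      exact h4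
    · have h4 := h2 i i.2 j hij
      rw [Function.update_self, Finset.sum_range] at h4
      have h5 : (∑ t : Fin k, (if τ i ≤ (t : ℕ) then
          a i t * y ^ (q ^ (t : ℕ) - q ^ (τ i)) else 0)) * y ^ (q ^ (τ i)) = 0 := by
        rw [Finset.sum_mul]
        refine Eq.trans ?_ h4
        refine Finset.sum_congr rfl fun t _ => ?_
        split_ifs with h6
        · rw [mul_assoc, ← pow_add]
          congr 2
          have := Nat.pow_le_pow_right (by omega : 0 < q) h6
          omega
        · rw [h1 i i.2 t (by omega)]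
          simp
      rcases mul_eq_zero.mp h5 with h6 | h6
      · exact h6
      · exact absurd h6 (pow_ne_zero _ hy0)
    · have h4 := h3 t t.2
      rw [← Finset.sum_coe_sort] at h4
      exact h4

end

end Pool.Agent.R558
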