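import Pool.Agent.R558.Extend

/-!
# Circuits of Moore matrices
-/

namespace Pool.Agent.R558

section

variable {R : Type*} [CommRing R] {n r : ℕ}

/-- the Moore minor omitting position `l` -/
noncomputable def minor (q : ℕ) (h : Fin n → R) (e : Fin (r + 1) → Fin n) (l : Fin (r + 1)) : R :=
  Matrix.det (Matrix.of fun (t s : Fin r) => h (e (l.succAbove s)) ^ (q ^ (t : ℕ)))

/-- the signed minors as a vector supported on the image of `e` -/
noncomputable def circ (q : ℕ) (h : Fin n → R) (e : Fin (r + 1) → Fin n) (j : Fin n) : R :=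
  ∑ l : Fin (r + 1), if e l = j then (-1) ^ (l : ℕ) * minor q h e l else 0

/-- the square matrix with first row `x` and Moore rows -/
def bigMat (q : ℕ) (h : Fin n → R) (e : Fin (r + 1) → Fin n) (x : Fin n → R) :
    Matrix (Fin (r + 1)) (Fin (r + 1)) R :=
  fun i l => Fin.cases (x (e l)) (fun t : Fin r => h (e l) ^ (q ^ (t : ℕ))) i

lemma circ_dot (q : ℕ) (h : Fin n → R) (e : Fin (r + 1) → Fin n) (x : Fin n → R) :
    ∑ j, circ q h e j * x j = (bigMat q h e x).det := by
  rw [Matrix.det_succ_row_zero]
  unfold circ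
  simp only [Finset.sum_mul]
  rw [Finset.sum_comm]
  refine Finset.sum_congr rfl fun l _ => ?_
  rw [Finset.sum_eq_single (e l)]
  · simp only [if_true]
    have h1 : bigMat q h e x 0 l = x (e l) := rfl
    have h2 : ((bigMat q h e x).submatrix Fin.succ l.succAbove).det = minor q h e l := rfl
    rw [h1, h2]
    ring
  · intro b _ hb
    rw [if_neg (Ne.symm hb), zero_mul]
  · simp

lemma circ_orth (q : ℕ) (h : Fin n → R) (e : Fin (r + 1) → Fin n) {t : ℕ} (ht : t < r) :
    ∑ j, circ q h e j * h j ^ (q ^ t) = 0 := by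
  rw [circ_dot]
  apply Matrix.det_zero_of_row_eq (i := 0) (j := Fin.succ ⟨t, ht⟩) (Fin.succ_ne_zero _).symm
  funext l
  rfl

lemma circ_zero (q : ℕ) (h : Fin n → R) (e : Fin (r + 1) → Fin n) {j : Fin n}
    (hj : ∀ l, e l ≠ j) : circ q h e j = 0 := by
  unfold circ
  apply Finset.sum_eq_zero
  intro l _
  rw [if_neg (hj l)]

lemma circ_map {R' : Type*} [CommRing R'] (φ : R →+* R') (q : ℕ) (h : Fin n → R)
    (e : Fin (r + 1) → Fin n) (j : Fin n) :
    φ (circ q h e j) = circ q (fun i => φ (h i)) e j := by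
  unfold circ
  rw [map_sum]
  refine Finset.sum_congr rfl fun l _ => ?_
  split_ifs
  · rw [map_mul, map_pow, map_neg, map_one]
    congr 1
    unfold minor
    rw [RingHom.map_det]
    congr 1
    ext t s
    simp
  · simp

end

section

variable {F E : Type*} [Field F] [Fintype F] [Field E] [Algebra F E] {n r : ℕ}

lemma minor_ne_zero {h : Fin n → E} (hh : LinearIndependent F h) {e : Fin (r + 1) → Fin n}
    (he : Function.Injective e) (l : Fin (r + 1)) : minor (Fintype.card F) h e l ≠ 0 := by
  intro h0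
  unfold minor at h0
  obtain ⟨a, ha0, ha⟩ := Matrix.exists_vecMul_eq_zero_iff.mpr h0
  have hind : LinearIndependent F (fun s : Fin r => h (e (l.succAbove s))) :=
    hh.comp (fun s => e (l.succAbove s)) (he.comp Fin.succAbove_right_injective)
  apply ha0
  apply moore hind (by simp)
  intro s
  exact congrFun ha s

lemma circ_ne_zero {h : Fin n → E} (hh : LinearIndependent F h) {e : Fin (r + 1) → Fin n}
    (he : Function.Injective e) (l : Fin (r + 1)) : circ (Fintype.card F) h e (e l) ≠ 0 := by
  unfold circ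
  rw [Finset.sum_eq_single l]
  · simp only [if_true]
    exact mul_ne_zero (pow_ne_zero _ (by norm_num)) (minor_ne_zero hh he l)
  · intro b _ hb
    rw [if_neg]
    intro h1
    exact hb (he h1)
  · simp

/-- the words `(f(g_1), …, f(g_n))` with `f` a linearized polynomial of `q`-degree less than `k` -/
def evalCode (F : Type*) [Fintype F] {E : Type*} [Field E] {n : ℕ} (k : ℕ) (g : Fin n → E) :
    Submodule E (Fin n → E) where
  carrier := {w | ∃ f : Fin k → E, ∀ j, w j = ∑ t : Fin k, f t * g j ^ (Fintype.card F ^ (t : ℕ))}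
  add_mem' := by
    rintro a b ⟨f, hf⟩ ⟨f', hf'⟩
    refine ⟨f + f', fun j => ?_⟩
    simp only [Pi.add_apply, hf j, hf' j, add_mul, Finset.sum_add_distrib]
  zero_mem' := ⟨0, fun j => by simp⟩
  smul_mem' := by
    rintro c a ⟨f, hf⟩
    refine ⟨c • f, fun j => ?_⟩
    simp only [Pi.smul_apply, smul_eq_mul, hf j, Finset.mul_sum, mul_assoc]

/-- words orthogonal to the first `r` Frobenius powers of `h` -/
def orthCode (F : Type*) [Fintype F] {E : Type*} [Field E] {n : ℕ} (r : ℕ) (h : Fin n → E) :
    Submodule E (Fin n → E) where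
  carrier := {w | ∀ t < r, ∑ j, w j * h j ^ (Fintype.card F ^ t) = 0}
  add_mem' := by
    intro a b ha hb t ht
    simp only [Pi.add_apply, add_mul, Finset.sum_add_distrib, ha t ht, hb t ht, add_zero]
  zero_mem' := fun t _ => by simp
  smul_mem' := by
    intro c a ha t ht
    simp only [Pi.smul_apply, smul_eq_mul, mul_assoc]
    rw [← Finset.mul_sum, ha t ht, mul_zero]

lemma finrank_evalCode {k : ℕ} (hk : k ≤ n) {g : Fin n → E} (hg : LinearIndependent F g) :
    Module.finrank E (evalCode F k g) = k := by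
  let Φ : (Fin k → E) →ₗ[E] (Fin n → E) :=
    { toFun := fun f j => ∑ t : Fin k, f t * g j ^ (Fintype.card F ^ (t : ℕ))
      map_add' := by
        intro a b
        funext j
        simp only [Pi.add_apply, add_mul, Finset.sum_add_distrib]
      map_smul' := by
        intro c a
        funext j
        simp only [Pi.smul_apply, smul_eq_mul, RingHom.id_apply, Finset.mul_sum, mul_assoc] }
  have hinj : Function.Injective Φ := by
    rw [← LinearMap.ker_eq_bot, LinearMap.ker_eq_bot']
    intro f hf
    apply moore hg (by simpa using hk)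
    intro j
    exact congrFun hf j
  have hrange : LinearMap.range Φ = evalCode F k g := by
    ext w
    constructor
    · rintro ⟨f, rfl⟩
      exact ⟨f, fun j => rfl⟩
    · rintro ⟨f, hf⟩
      exact ⟨f, funext fun j => (hf j).symm⟩
  rw [← hrange, LinearMap.finrank_range_of_inj hinj]
  simp

lemma finrank_orthCode {k : ℕ} (hkr : k + r = n) {h : Fin n → E} (hh : LinearIndependent F h) :
    Module.finrank E (orthCode F r h) = k := by
  let M : Matrix (Fin r) (Fin n) E := fun t j => h j ^ (Fintype.card F ^ (t : ℕ))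
  have hrows : LinearIndependent E M.row := by
    rw [Fintype.linearIndependent_iff]
    intro a ha
    have : a = 0 := by
      apply moore hh (by simp; omega)
      intro j
      have h1 := congrFun ha j
      simpa [Finset.sum_apply, M, Matrix.row] using h1
    intro i
    rw [this]
    rfl
  have hrank : M.rank = r := by
    rw [hrows.rank_matrix]
    simp
  have hker : LinearMap.ker M.mulVecLin = orthCode F r h := by
    ext w
    rw [LinearMap.mem_ker]
    constructor
    · intro h1 t ht
      have h2 := congrFun h1 ⟨t, ht⟩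
      rw [Matrix.mulVecLin_apply, Matrix.mulVec, dotProduct] at h2
      refine Eq.trans ?_ h2
      refine Finset.sum_congr rfl fun j _ => mul_comm _ _
    · intro h1
      funext t
      rw [Matrix.mulVecLin_apply, Matrix.mulVec, dotProduct]
      refine Eq.trans ?_ (h1 t t.isLt)
      refine Finset.sum_congr rfl fun j _ => mul_comm _ _
  have h1 := LinearMap.finrank_range_add_finrank_ker M.mulVecLin
  rw [hker] at h1
  have h2 : Module.finrank E (LinearMap.range M.mulVecLin) = r := hrank
  rw [h2] at h1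
  simp only [Module.finrank_fintype_fun_eq_card, Fintype.card_fin] at h1
  omega

/-- if `g` and `h` are dual to each other the two descriptions agree -/
theorem evalCode_eq {k : ℕ} (hkr : k + r = n) {g h : Fin n → E} (hg : LinearIndependent F g)
    (hh : LinearIndependent F h) (hgh : ∀ s < k, ∀ t < r,
      ∑ j, g j ^ (Fintype.card F ^ s) * h j ^ (Fintype.card F ^ t) = 0) :
    evalCode F k g = orthCode F r h := by
  apply Submodule.eq_of_le_of_finrank_eq
  · rintro w ⟨f, hf⟩ t ht
    simp only [hf, Finset.sum_mul]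
    rw [Finset.sum_comm]
    apply Finset.sum_eq_zero
    intro s _
    have h1 := hgh s s.isLt t ht
    have h2 : ∀ j, f s * g j ^ (Fintype.card F ^ (s : ℕ)) * h j ^ (Fintype.card F ^ t) =
        f s * (g j ^ (Fintype.card F ^ (s : ℕ)) * h j ^ (Fintype.card F ^ t)) :=
      fun j => mul_assoc _ _ _
    simp only [h2]
    rw [← Finset.mul_sum, h1, mul_zero]
  · rw [finrank_evalCode (by omega) hg, finrank_orthCode hkr hh]

/-- existence of a dual tuple in all cases -/
theorem exists_dual' (hs : ∀ y : E, ∃ x : E, x ^ Fintype.card F = y) {k : ℕ}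
    (hkr : k + r = n) {g : Fin n → E} (hg : LinearIndependent F g) :
    ∃ h : Fin n → E, LinearIndependent F h ∧ evalCode F k g = orthCode F r h ∧
      evalCode F r h = orthCode F k g := by
  rcases Nat.eq_zero_or_pos k with h0 | h0
  · refine ⟨g, hg, ?_, ?_⟩
    · apply evalCode_eq hkr hg hg
      intro s hs'
      omega
    · apply evalCode_eq (by omega) hg hg
      intro s _ t ht
      omega
  rcases Nat.eq_zero_or_pos r with h1 | h1
  · refine ⟨g, hg, ?_, ?_⟩
    · apply evalCode_eq hkr hg hg
      intro s _ t ht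
      omega
    · apply evalCode_eq (by omega) hg hg
      intro s hs'
      omega
  obtain ⟨N, rfl⟩ : ∃ N, n = N + 1 := ⟨n - 1, by omega⟩
  obtain ⟨h, hh, hgh⟩ := exists_dual hs hkr h0 h1 hg
  refine ⟨h, hh, evalCode_eq hkr hg hh hgh, evalCode_eq (by omega) hh hg ?_⟩
  intro s hs' t ht
  rw [← hgh t ht s hs']
  exact Finset.sum_congr rfl fun j _ => mul_comm _ _

end

section degrees

open MvPolynomial

variable {L : Type*} [Field L] {n r : ℕ}

lemma degreeOf_det_le {m : ℕ} (M : Matrix (Fin m) (Fin m) (MvPolynomial (Fin n) L)) (l : Fin n)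
    (D : ℕ) (h : ∀ σ : Equiv.Perm (Fin m), ∑ i, degreeOf l (M (σ i) i) ≤ D) :
    degreeOf l M.det ≤ D := by
  rw [Matrix.det_apply]
  refine (degreeOf_sum_le l _ _).trans ?_
  apply Finset.sup_le
  intro σ _
  have h1 : degreeOf l (∏ i, M (σ i) i) ≤ D := (degreeOf_prod_le l _ _).trans (h σ)
  rcases Int.units_eq_one_or (Equiv.Perm.sign σ) with h2 | h2
  · rw [h2, one_smul]
    exact h1
  · rw [h2, Units.neg_smul, one_smul, degreeOf_neg]
    exact h1

lemma sum_pow_lt {q : ℕ} (hq : 1 < q) (r : ℕ) : ∑ t ∈ Finset.range r, q ^ t < q ^ r := by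
  induction r with
  | zero => simp
  | succ r ih =>
    rw [Finset.sum_range_succ, pow_succ]
    have : q ^ r * 2 ≤ q ^ r * q := Nat.mul_le_mul_left _ hq
    omega

lemma degreeOf_minor {q : ℕ} (hq : 1 < q) (e : Fin (r + 1) → Fin n) (i : Fin (r + 1))
    (l : Fin n) : degreeOf l (minor q (X : Fin n → MvPolynomial (Fin n) L) e i) ≤ q ^ r - 1 := by
  unfold minor
  apply degreeOf_det_le
  intro σ
  have h1 : ∀ s : Fin r, degreeOf l ((X (e (i.succAbove s)) : MvPolynomial (Fin n) L) ^
      (q ^ ((σ s : Fin r) : ℕ))) ≤ q ^ ((σ s : Fin r) : ℕ) := by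
    intro s
    refine (degreeOf_pow_le _ _ _).trans ?_
    have h2 : degreeOf l (X (e (i.succAbove s)) : MvPolynomial (Fin n) L) ≤ 1 := by
      rw [degreeOf_X]
      split_ifs <;> omega
    calc _ ≤ q ^ ((σ s : Fin r) : ℕ) * 1 := Nat.mul_le_mul_left _ h2
      _ = _ := mul_one _
  refine (Finset.sum_le_sum fun s _ => h1 s).trans ?_
  rw [Equiv.sum_comp σ (fun s : Fin r => q ^ (s : ℕ)), ← Finset.sum_range (fun t => q ^ t)]
  have := sum_pow_lt hq r
  omega

lemma degreeOf_circ {q : ℕ} (hq : 1 < q) (e : Fin (r + 1) → Fin n) (j l : Fin n) :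
    degreeOf l (circ q (X : Fin n → MvPolynomial (Fin n) L) e j) ≤ q ^ r - 1 := by
  unfold circ
  refine (degreeOf_sum_le l _ _).trans ?_
  apply Finset.sup_le
  intro i _
  split_ifs
  · refine (degreeOf_mul_le l _ _).trans ?_
    have h1 : degreeOf l ((-1 : MvPolynomial (Fin n) L) ^ (i : ℕ)) = 0 := by
      have : (-1 : MvPolynomial (Fin n) L) ^ (i : ℕ) = C ((-1 : L) ^ (i : ℕ)) := by simp
      rw [this, degreeOf_C]
    rw [h1, zero_add]
    exact degreeOf_minor hq e i l
  · simp

/-- the Moore determinant -/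
noncomputable def mooreDet (q n : ℕ) (L : Type*) [Field L] : MvPolynomial (Fin n) L :=
  Matrix.det (Matrix.of fun (t s : Fin n) => (X s : MvPolynomial (Fin n) L) ^ (q ^ (t : ℕ)))

lemma degreeOf_mooreDet {q : ℕ} (hq : 1 < q) (l : Fin n) :
    degreeOf l (mooreDet q n L) ≤ q ^ (n - 1) := by
  unfold mooreDet
  apply degreeOf_det_le
  intro σ
  have h1 : ∀ s : Fin n, degreeOf l ((X s : MvPolynomial (Fin n) L) ^
      (q ^ ((σ s : Fin n) : ℕ))) ≤ if s = l then q ^ (n - 1) else 0 := by
    intro s
    refine (degreeOf_pow_le _ _ _).trans ?_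
    rw [degreeOf_X]
    by_cases h : s = l
    · subst h
      simp only [if_true, mul_one]
      apply Nat.pow_le_pow_right (by omega)
      have := (σ s).isLt
      omega
    · rw [if_neg (Ne.symm h), if_neg h, mul_zero]
  refine (Finset.sum_le_sum fun s _ => h1 s).trans ?_
  simp

end degrees

end Pool.Agent.R558
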