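import Pool.Agent.R558.Induct

/-!
# Support constraints can be made maximal
-/

namespace Pool.Agent.R558

variable {ι κ : Type*} [Fintype ι] [DecidableEq ι] [Fintype κ] [DecidableEq κ]

/-- condition (∗): `|⋂_{i ∈ Ω} Z_i| + |Ω| ≤ k` for all nonempty `Ω` -/
def Star (k : ℕ) (Z : ι → Finset κ) : Prop :=
  ∀ Ω : Finset ι, Ω.Nonempty → (cap Z Ω).card + Ω.card ≤ k

omit [Fintype ι] in
lemma cap_union (Z : ι → Finset κ) (Ω Θ : Finset ι) : cap Z (Ω ∪ Θ) = cap Z Ω ∩ cap Z Θ := by
  ext j
  simp only [mem_cap, Finset.mem_inter, Finset.mem_union]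
  constructor
  · intro h
    exact ⟨fun i hi => h i (Or.inl hi), fun i hi => h i (Or.inr hi)⟩
  · rintro ⟨h1, h2⟩ i (hi | hi)
    · exact h1 i hi
    · exact h2 i hi

omit [Fintype ι] [DecidableEq ι] in
lemma cap_anti (Z : ι → Finset κ) {Ω Θ : Finset ι} (h : Ω ⊆ Θ) : cap Z Θ ⊆ cap Z Ω := by
  intro j hj
  rw [mem_cap] at hj ⊢
  exact fun i hi => hj i (h hi)

omit [Fintype ι] in
theorem Star.add_one {k : ℕ} {Z : ι → Finset κ} (hZ : Star k Z) (hk : k ≤ Fintype.card κ) (i1 : ι)
    (h1 : (Z i1).card + 1 < k) :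
    ∃ x, x ∉ Z i1 ∧ Star k (Function.update Z i1 (insert x (Z i1))) := by
  by_contra hcon
  push Not at hcon
  -- tight sets
  have tight : ∀ x, x ∉ Z i1 → ∃ Ω : Finset ι, i1 ∈ Ω ∧ (cap Z Ω).card + Ω.card = k ∧
      ∀ i ∈ Ω, i ≠ i1 → x ∈ Z i := by
    intro x hx
    have h2 := hcon x hx
    unfold Star at h2
    push Not at h2
    obtain ⟨Ω, hne, hΩ⟩ := h2
    have hi1 : i1 ∈ Ω := by
      by_contra h3
      have h4 : cap (Function.update Z i1 (insert x (Z i1))) Ω = cap Z Ω := by
        ext j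
        simp only [mem_cap]
        refine forall_congr' fun i => forall_congr' fun hi => ?_
        rw [Function.update_of_ne]
        rintro rfl
        exact h3 hi
      rw [h4] at hΩ
      have := hZ Ω hne
      omega
    have hsub : cap (Function.update Z i1 (insert x (Z i1))) Ω ⊆ insert x (cap Z Ω) := by
      intro j hj
      rw [mem_cap] at hj
      rw [Finset.mem_insert, mem_cap]
      by_cases hjx : j = x
      · exact Or.inl hjx
      · right
        intro i hi
        by_cases h3 : i = i1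
        · subst h3
          have h4 := hj i hi
          rw [Function.update_self, Finset.mem_insert] at h4
          exact h4.resolve_left hjx
        · have h4 := hj i hi
          rwa [Function.update_of_ne h3] at h4
    have hle := Finset.card_le_card hsub
    have hle2 := Finset.card_insert_le x (cap Z Ω)
    have h3 := hZ Ω hne
    refine ⟨Ω, hi1, by omega, ?_⟩
    by_contra h4
    push Not at h4
    obtain ⟨i, hi, hne1, hxi⟩ := h4
    have hsub2 : cap (Function.update Z i1 (insert x (Z i1))) Ω ⊆ cap Z Ω := by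
      intro j hj
      rcases Finset.mem_insert.mp (hsub hj) with h5 | h5
      · subst h5
        rw [mem_cap] at hj
        have h6 := hj i hi
        rw [Function.update_of_ne hne1] at h6
        exact absurd h6 hxi
      · exact h5
    have := Finset.card_le_card hsub2
    omega
  -- two elements outside
  have hc : 1 < (Finset.univ \ Z i1).card := by
    rw [Finset.card_sdiff_of_subset (Finset.subset_univ _), Finset.card_univ]
    omega
  obtain ⟨x, hx, y, hy, hxy⟩ := Finset.one_lt_card.mp hc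
  have hx' : x ∉ Z i1 := (Finset.mem_sdiff.mp hx).2
  have hy' : y ∉ Z i1 := (Finset.mem_sdiff.mp hy).2
  obtain ⟨Ω, hΩ1, hΩt, hΩx⟩ := tight x hx'
  obtain ⟨Θ, hΘ1, hΘt, hΘy⟩ := tight y hy'
  have hi : i1 ∈ Ω ∩ Θ := Finset.mem_inter.mpr ⟨hΩ1, hΘ1⟩
  have e1 := hZ (Ω ∪ Θ) ⟨i1, Finset.mem_union_left _ hΩ1⟩
  have e2 := hZ (Ω ∩ Θ) ⟨i1, hi⟩
  rw [cap_union] at e1
  have e3 := Finset.card_union_add_card_inter (cap Z Ω) (cap Z Θ)
  have e4 := Finset.card_union_add_card_inter Ω Θ
  have e5 : (cap Z Ω ∪ cap Z Θ).card ≤ (cap Z (Ω ∩ Θ)).card := by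
    apply Finset.card_le_card
    apply Finset.union_subset
    · exact cap_anti Z Finset.inter_subset_left
    · exact cap_anti Z Finset.inter_subset_right
  have e6 : (cap Z (Ω ∩ Θ)).card + (Ω ∩ Θ).card = k := by omega
  rcases Nat.lt_or_ge (Ω ∩ Θ).card 2 with h2 | h2
  · have h3 : (Ω ∩ Θ).card = 1 := by
      have := Finset.card_pos.mpr ⟨i1, hi⟩
      omega
    obtain ⟨i, hi'⟩ := Finset.card_eq_one.mp h3
    have h4 : i = i1 := by
      rw [hi', Finset.mem_singleton] at hi
      exact hi.symm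
    rw [hi', h4] at e6
    have h5 : cap Z {i1} = Z i1 := by
      ext l
      simp [mem_cap]
    rw [h5, Finset.card_singleton] at e6
    omega
  · have h3 : ((Ω ∩ Θ).erase i1).Nonempty := by
      rw [← Finset.card_pos, Finset.card_erase_of_mem hi]
      omega
    have h4 := hZ _ h3
    rw [Finset.card_erase_of_mem hi] at h4
    have h5 : insert x (insert y (cap Z (Ω ∩ Θ))) ⊆ cap Z ((Ω ∩ Θ).erase i1) := by
      intro j hj
      rw [mem_cap]
      intro i hi2
      rw [Finset.mem_erase, Finset.mem_inter] at hi2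
      rcases Finset.mem_insert.mp hj with rfl | hj
      · exact hΩx i hi2.2.1 hi2.1
      rcases Finset.mem_insert.mp hj with rfl | hj
      · exact hΘy i hi2.2.2 hi2.1
      · exact (mem_cap.mp hj) i (Finset.mem_inter.mpr hi2.2)
    have h6 := Finset.card_le_card h5
    have hynot : y ∉ cap Z (Ω ∩ Θ) := fun h => hy' (mem_cap.mp h i1 hi)
    have hxnot : x ∉ insert y (cap Z (Ω ∩ Θ)) := by
      rw [Finset.mem_insert, not_or]
      exact ⟨hxy, fun h => hx' (mem_cap.mp h i1 hi)⟩
    rw [Finset.card_insert_of_notMem hxnot, Finset.card_insert_of_notMem hynot] at h6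
    omega

/-- every system of sets with (∗) is contained in one whose sets have `k - 1` elements -/
theorem Star.extend {k : ℕ} (hk : k ≤ Fintype.card κ) : ∀ (s : ℕ) (Z : ι → Finset κ), Star k Z →
    ∑ i, (k - 1 - (Z i).card) = s →
    ∃ Z' : ι → Finset κ, (∀ i, Z i ⊆ Z' i) ∧ Star k Z' ∧ ∀ i, (Z' i).card + 1 = k := by
  intro s
  induction s with
  | zero =>
    intro Z hZ hs
    refine ⟨Z, fun i => Finset.Subset.refl _, hZ, fun i => ?_⟩
    have h1 := hZ {i} ⟨i, by simp⟩
    have h2 : cap Z {i} = Z i := by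
      ext l
      simp [mem_cap]
    rw [h2, Finset.card_singleton] at h1
    have h3 := (Finset.sum_eq_zero_iff.mp hs) i (Finset.mem_univ i)
    omega
  | succ s ih =>
    intro Z hZ hs
    obtain ⟨i1, -, hi1⟩ : ∃ i ∈ (Finset.univ : Finset ι), 0 < k - 1 - (Z i).card := by
      by_contra hcon
      push Not at hcon
      have : ∑ i, (k - 1 - (Z i).card) = 0 :=
        Finset.sum_eq_zero fun i hi => Nat.le_zero.mp (hcon i hi)
      omega
    obtain ⟨x, hx, hZ'⟩ := hZ.add_one hk i1 (by omega)
    obtain ⟨Z', h1, h2, h3⟩ := ih _ hZ' (by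
      rw [← Finset.add_sum_erase _ _ (Finset.mem_univ i1)] at hs ⊢
      rw [Function.update_self, Finset.card_insert_of_notMem hx]
      have h4 : ∑ i ∈ Finset.univ.erase i1, (k - 1 -
          (Function.update Z i1 (insert x (Z i1)) i).card) =
          ∑ i ∈ Finset.univ.erase i1, (k - 1 - (Z i).card) := by
        refine Finset.sum_congr rfl fun i hi => ?_
        rw [Function.update_of_ne (Finset.mem_erase.mp hi).1]
      rw [h4]
      omega)
    refine ⟨Z', fun i => ?_, h2, h3⟩
    refine Finset.Subset.trans ?_ (h1 i)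
    by_cases h4 : i = i1
    · subst h4
      rw [Function.update_self]
      exact Finset.subset_insert _ _
    · rw [Function.update_of_ne h4]

end Pool.Agent.R558
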