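import Mathlib

/-!
The words of a binary linear code which are fixed by a 2-group: `dim C ≤ |H| dim C^H`.
-/

namespace Pool.Agent.R558

open Finset

section Group

variable {G X : Type} [Group G] [MulAction G X]

/-- The words of `C` which are invariant under `H`. -/
def fixed (C : Submodule (ZMod 2) (X → ZMod 2)) (H : Subgroup G) :
    Submodule (ZMod 2) (X → ZMod 2) where
  carrier := {c | c ∈ C ∧ ∀ h ∈ H, ∀ x, c (h • x) = c x}
  add_mem' := fun {a b} ha hb => ⟨C.add_mem ha.1 hb.1, fun h hh x => by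
    rw [Pi.add_apply, Pi.add_apply, ha.2 h hh, hb.2 h hh]⟩
  zero_mem' := ⟨C.zero_mem, fun _ _ _ => rfl⟩
  smul_mem' := fun r a ha => ⟨C.smul_mem r ha.1, fun h hh x => by
    rw [Pi.smul_apply, Pi.smul_apply, ha.2 h hh]⟩

lemma fixed_step [Finite X] (C : Submodule (ZMod 2) (X → ZMod 2))
    (hC : ∀ g : G, ∀ c ∈ C, (fun x => c (g • x)) ∈ C) (H K : Subgroup G) (hKH : K ≤ H)
    (hi : (K.subgroupOf H).index = 2) :
    Module.finrank (ZMod 2) (fixed C K) ≤ 2 * Module.finrank (ZMod 2) (fixed C H) := by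
  have hne : ∃ g ∈ H, g ∉ K := by
    by_contra hcon
    push Not at hcon
    have : K.subgroupOf H = ⊤ := by
      rw [Subgroup.subgroupOf_eq_top]
      exact hcon
    rw [this, Subgroup.index_top] at hi
    omega
  obtain ⟨g, hgH, hgK⟩ := hne
  have hmul : ∀ a b : H, (a * b : H) ∈ K.subgroupOf H ↔
      (a ∈ K.subgroupOf H ↔ b ∈ K.subgroupOf H) := fun a b =>
    Subgroup.mul_mem_iff_of_index_two hi
  have hgg : g * g ∈ K := by
    have := hmul ⟨g, hgH⟩ ⟨g, hgH⟩
    simpa [Subgroup.mem_subgroupOf] using this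
  have hconj : ∀ k ∈ K, g * k * g⁻¹ ∈ K := by
    intro k hk
    have h1 := hmul (⟨g, hgH⟩ * ⟨k, hKH hk⟩) ⟨g⁻¹, H.inv_mem hgH⟩
    have h2 := hmul ⟨g, hgH⟩ ⟨k, hKH hk⟩
    simp only [Subgroup.mem_subgroupOf, Subgroup.coe_mul, inv_mem_iff] at h1 h2
    rw [h1, h2]
    simp [hgK, hk]
  let T : fixed C K →ₗ[ZMod 2] fixed C K :=
    { toFun := fun c => ⟨fun x => c.1 (g • x) + c.1 x, by
        refine ⟨C.add_mem (hC g c.1 c.2.1) c.2.1, fun k hk x => ?_⟩
        have h1 : g • k • x = (g * k * g⁻¹) • g • x := by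
          rw [smul_smul, smul_smul, inv_mul_cancel_right]
        show c.1 (g • k • x) + c.1 (k • x) = c.1 (g • x) + c.1 x
        rw [h1, c.2.2 _ (hconj k hk), c.2.2 k hk]⟩
      map_add' := fun c d => by
        ext x
        simp only [Submodule.coe_add, Pi.add_apply]
        ring
      map_smul' := fun r c => by
        ext x
        simp only [SetLike.val_smul, Pi.smul_apply, smul_eq_mul, RingHom.id_apply]
        ring }
  have hTT : ∀ c, T (T c) = 0 := by
    intro c
    ext x
    show (c.1 (g • g • x) + c.1 (g • x)) + (c.1 (g • x) + c.1 x) = 0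
    rw [smul_smul, c.2.2 _ hgg]
    have : ∀ a b : ZMod 2, a + b + (b + a) = 0 := by decide
    exact this _ _
  have h1 : LinearMap.range T ≤ LinearMap.ker T := by
    rintro _ ⟨c, rfl⟩
    exact hTT c
  have h2 := LinearMap.finrank_range_add_finrank_ker T
  have h3 := Submodule.finrank_mono h1
  have h4 : Module.finrank (ZMod 2) (LinearMap.ker T) ≤ Module.finrank (ZMod 2) (fixed C H) := by
    refine LinearMap.finrank_le_finrank_of_injective (f := (
      { toFun := fun c => ⟨c.1.1, c.1.2.1, fun h hh x => ?_⟩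
        map_add' := fun c d => rfl
        map_smul' := fun r c => rfl } : LinearMap.ker T →ₗ[ZMod 2] fixed C H)) ?_
    · have hg : ∀ y, c.1.1 (g • y) = c.1.1 y := by
        intro y
        have := congrFun (congrArg Subtype.val (LinearMap.mem_ker.1 c.2)) y
        have h5 : c.1.1 (g • y) + c.1.1 y = 0 := this
        have : ∀ a b : ZMod 2, a + b = 0 → a = b := by decide
        exact this _ _ h5
      by_cases hk : h ∈ K
      · exact c.1.2.2 h hk x
      · have h6 : g⁻¹ * h ∈ K := by
          have := hmul ⟨g⁻¹, H.inv_mem hgH⟩ ⟨h, hh⟩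
          simp only [Subgroup.mem_subgroupOf, Subgroup.coe_mul, inv_mem_iff] at this
          rw [this]
          simp [hgK, hk]
        have h7 : h • x = g • (g⁻¹ * h) • x := by
          rw [smul_smul, mul_inv_cancel_left]
        rw [h7, hg, c.1.2.2 _ h6]
    · intro c d hcd
      ext x
      exact congrFun (congrArg Subtype.val hcd) x
  omega

lemma finrank_le_fixed [Finite G] [Finite X] (hG : IsPGroup 2 G)
    (C : Submodule (ZMod 2) (X → ZMod 2))
    (hC : ∀ g : G, ∀ c ∈ C, (fun x => c (g • x)) ∈ C) (k : ℕ) :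
    ∀ H : Subgroup G, Nat.card H = 2 ^ k →
    Module.finrank (ZMod 2) C ≤ 2 ^ k * Module.finrank (ZMod 2) (fixed C H) := by
  induction k with
  | zero =>
    intro H hH
    rw [pow_zero, one_mul]
    have : H = ⊥ := by
      rw [← Subgroup.card_eq_one]
      simpa using hH
    refine Submodule.finrank_mono fun c hc => ⟨hc, fun h hh x => ?_⟩
    rw [this, Subgroup.mem_bot] at hh
    rw [hh, one_smul]
  | succ k ih =>
    intro H hH
    obtain ⟨K, hK1, hK2⟩ := Sylow.exists_subgroup_le_card_pow_prime_of_le_card (n := k)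
      Nat.prime_two hG (H := H) (by rw [hH]; exact Nat.pow_le_pow_right (by norm_num) (by omega))
    have h1 := ih K hK2
    have h2 : (K.subgroupOf H).index = 2 := by
      have h3 := Subgroup.card_mul_index (K.subgroupOf H)
      have h4 : Nat.card (K.subgroupOf H) = Nat.card K :=
        Nat.card_congr (Subgroup.subgroupOfEquivOfLe hK1).toEquiv
      rw [h4, hK2, hH, pow_succ] at h3
      exact Nat.eq_of_mul_eq_mul_left (by positivity) h3
    have h3 := fixed_step C hC H K hK1 h2
    calc _ ≤ 2 ^ k * Module.finrank (ZMod 2) (fixed C K) := h1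
      _ ≤ 2 ^ k * (2 * Module.finrank (ZMod 2) (fixed C H)) := Nat.mul_le_mul_left _ h3
      _ = _ := by ring

end Group

end Pool.Agent.R558
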