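import Pool.Agent.R558.Circuit

/-!
# Support-constrained Gabidulin codes over every field of degree at least `n`
-/

open MvPolynomial

namespace Pool.Agent.R558

lemma pow_bound {q n k r : ℕ} (hq : 1 < q) (hk : 1 ≤ k) (hkr : k + r = n) :
    q ^ (n - 1) + k * (q ^ r - 1) < q ^ n := by
  obtain ⟨K, rfl⟩ : ∃ K, k = K + 1 := ⟨k - 1, by omega⟩
  have h1 : K + 1 ≤ q ^ K := by
    have := Nat.lt_pow_self hq (n := K)
    omega
  have h2 : (K + 1) * q ^ r ≤ q ^ (n - 1) := by
    have h3 : q ^ (n - 1) = q ^ K * q ^ r := by
      rw [← pow_add]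
      congr 1
      omega
    rw [h3]
    exact Nat.mul_le_mul_right _ h1
  have h3 : q ^ n = q ^ (n - 1) * q := by
    rw [← pow_succ]
    congr 1
    omega
  have h4 : 0 < q ^ r := by positivity
  have h5 : (K + 1) * (q ^ r - 1) < (K + 1) * q ^ r :=
    Nat.mul_lt_mul_of_pos_left (by omega) (by omega)
  have h6 : q ^ (n - 1) * 2 ≤ q ^ (n - 1) * q := Nat.mul_le_mul_left _ hq
  omega

variable {F : Type*} [Field F] [Fintype F]

/-- the circuits of a suitable dual tuple over an algebraically closed field are independent -/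
theorem exists_over_closed {L : Type*} [Field L] [Algebra F L] [IsAlgClosed L] {n k r : ℕ}
    (hkr : k + r = n) {Z : Fin k → Finset (Fin n)} (hZ : Star k Z)
    (hcard : ∀ i, (Z i).card + 1 = k) (e : Fin k → Fin (r + 1) → Fin n)
    (he : ∀ i, Function.Injective (e i)) (heZ : ∀ i l, e i l ∉ Z i) :
    ∃ h : Fin n → L, LinearIndependent F h ∧ ∀ y : Fin k → L,
      (∀ j, ∑ i, y i * circ (Fintype.card F) h (e i) j = 0) → y = 0 := by
  classical
  have : Infinite L := IsAlgClosed.instInfinite
  have hgood : Good k (Finset.univ : Finset (Fin k)) Z (fun _ => 0) := by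
    refine ⟨fun i _ => ?_, fun Ω _ hne m hm => ?_⟩
    · have := hcard i
      omega
    · have h1 : ∑ i ∈ Ω, (k - (Z i).card - 0) = Ω.card := by
        rw [Finset.card_eq_sum_ones]
        refine Finset.sum_congr rfl fun i _ => ?_
        have := hcard i
        omega
      obtain ⟨i, hi⟩ := hne
      have h2 : m = 0 := Nat.le_zero.mp (hm i hi)
      have h3 := hZ Ω ⟨i, hi⟩
      rw [h1, h2]
      omega
  obtain ⟨g0, hg0⟩ := main_exists (F := F) (L := L) k Finset.univ Z _ hgood
  obtain ⟨D, hD0, hD⟩ := exists_indep_poly F L (Fin n)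
  obtain ⟨g, hgD, hg⟩ := hg0.exists_and D hD0
  have hgi := hD g hgD
  obtain ⟨h, hh, hcode, -⟩ := exists_dual' (F := F)
    (fun y => IsAlgClosed.exists_pow_nat_eq y (q_pos (F := F))) hkr hgi
  refine ⟨h, hh, fun y hy => ?_⟩
  have hmem : ∀ i, circ (Fintype.card F) h (e i) ∈ evalCode F k g := by
    intro i
    rw [hcode]
    intro t ht
    exact circ_orth _ h (e i) ht
  choose f hf using hmem
  have hb : (fun t : Fin k => ∑ i, y i * f i t) = 0 := by
    apply moore hgi (by simp; omega)
    intro j
    have h1 := hy j
    simp only [hf, Finset.mul_sum] at h1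
    rw [Finset.sum_comm] at h1
    refine Eq.trans ?_ h1
    refine Finset.sum_congr rfl fun t _ => ?_
    rw [Finset.sum_mul]
    refine Finset.sum_congr rfl fun i _ => ?_
    ring
  have key := hg (fun i t => if ht : t < k then y i * f i ⟨t, ht⟩ else 0)
    (fun i _ t ht => absurd ht (by simp)) (fun i _ j hj => by
      rw [Finset.sum_range]
      have h2 : circ (Fintype.card F) h (e i) j = 0 := by
        apply circ_zero
        intro l hl
        exact heZ i l (hl ▸ hj)
      have h3 : y i * circ (Fintype.card F) h (e i) j = 0 := by rw [h2, mul_zero]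
      rw [hf i j, Finset.mul_sum] at h3
      refine Eq.trans ?_ h3
      refine Finset.sum_congr rfl fun t _ => ?_
      rw [dif_pos t.2]
      ring) (fun t ht => by
      have h4 := congrFun hb ⟨t, ht⟩
      refine Eq.trans ?_ h4
      refine Finset.sum_congr rfl fun i _ => ?_
      rw [dif_pos ht])
  funext i
  by_contra hyi
  have hyi' : y i ≠ 0 := hyi
  apply circ_ne_zero hh (he i) 0
  rw [hf]
  apply Finset.sum_eq_zero
  intro t _
  have h5 := key i (Finset.mem_univ i) t t.2
  rw [dif_pos t.2] at h5
  rcases mul_eq_zero.mp h5 with h6 | h6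
  · exact absurd h6 hyi'
  · have h7 : f i t = 0 := h6
    rw [h7, zero_mul]

/-- **Main theorem.** -/
theorem main {K : Type*} [Field K] [Fintype K] [Algebra F K] {n k r : ℕ} (hk : 1 ≤ k)
    (hkr : k + r = n) (hK : Fintype.card F ^ n ≤ Fintype.card K) {Z : Fin k → Finset (Fin n)}
    (hZ : Star k Z) (hcard : ∀ i, (Z i).card + 1 = k) :
    ∃ g : Fin n → K, LinearIndependent F g ∧ ∃ G : Fin k → Fin n → K, LinearIndependent K G ∧
      Submodule.span K (Set.range G) = evalCode F k g ∧ ∀ i, ∀ j ∈ Z i, G i j = 0 := by
  classical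
  have hq : 1 < Fintype.card F := one_lt_q
  let L := AlgebraicClosure K
  have hc : ∀ i, (Finset.univ \ Z i).card = r + 1 := by
    intro i
    rw [Finset.card_sdiff_of_subset (Finset.subset_univ _), Finset.card_univ, Fintype.card_fin]
    have := hcard i
    omega
  let e : Fin k → Fin (r + 1) → Fin n := fun i => (Finset.univ \ Z i).orderEmbOfFin (hc i)
  have he : ∀ i, Function.Injective (e i) := fun i =>
    ((Finset.univ \ Z i).orderEmbOfFin (hc i)).injective
  have heZ : ∀ i l, e i l ∉ Z i := fun i l =>
    (Finset.mem_sdiff.mp ((Finset.univ \ Z i).orderEmbOfFin_mem (hc i) l)).2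
  obtain ⟨h0, hh0, hind⟩ := exists_over_closed (F := F) (L := L) hkr hZ hcard e he heZ
  -- left inverse
  let C0 : ∀ {R : Type _} [CommRing R], (Fin n → R) → Matrix (Fin n) (Fin k) R :=
    fun {R} _ h => Matrix.of fun j i => circ (Fintype.card F) h (e i) j
  have hker : LinearMap.ker (C0 h0).mulVecLin = ⊥ := by
    rw [LinearMap.ker_eq_bot']
    intro y hy
    apply hind
    intro j
    have h1 := congrFun hy j
    rw [Matrix.mulVecLin_apply, Matrix.mulVec, dotProduct] at h1
    refine Eq.trans ?_ h1
    exact Finset.sum_congr rfl fun i _ => mul_comm _ _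
  obtain ⟨ψ, hψ⟩ := LinearMap.exists_leftInverse_of_injective (C0 h0).mulVecLin hker
  set B : Matrix (Fin k) (Fin n) L := LinearMap.toMatrix' ψ with hB
  have hBC : B * C0 h0 = 1 := by
    have h1 : LinearMap.toMatrix' (ψ ∘ₗ (C0 h0).mulVecLin) = 1 := by
      rw [hψ, LinearMap.toMatrix'_id]
    rw [LinearMap.toMatrix'_comp] at h1
    rw [← h1, hB]
    congr 1
    rw [← Matrix.toLin'_apply', LinearMap.toMatrix'_toLin']
  let MX : Matrix (Fin k) (Fin k) (MvPolynomial (Fin n) L) :=
    Matrix.of fun a b => ∑ j, C (B a j) *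
      circ (Fintype.card F) (X : Fin n → MvPolynomial (Fin n) L) (e b) j
  have hMX : ∀ x : Fin n → L, eval x MX.det = (B * C0 x).det := by
    intro x
    rw [RingHom.map_det]
    congr 1
    ext a b
    simp only [MX, C0, RingHom.mapMatrix_apply, Matrix.map_apply, Matrix.of_apply,
      Matrix.mul_apply, map_sum, map_mul, eval_C]
    refine Finset.sum_congr rfl fun j _ => ?_
    rw [circ_map (eval x)]
    congr 2
    funext l
    simp
  have hmoore : ∀ x : Fin n → L, eval x (mooreDet (Fintype.card F) n L) =
      Matrix.det (Matrix.of fun (t s : Fin n) => x s ^ (Fintype.card F ^ (t : ℕ))) := by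
    intro x
    unfold mooreDet
    rw [RingHom.map_det]
    congr 1
    ext t s
    simp
  let P : MvPolynomial (Fin n) L := mooreDet (Fintype.card F) n L * MX.det
  have hP0 : eval h0 P ≠ 0 := by
    rw [map_mul, hMX, hBC, Matrix.det_one, mul_one, hmoore]
    intro hdet
    obtain ⟨a, ha0, ha⟩ := Matrix.exists_vecMul_eq_zero_iff.mpr hdet
    apply ha0
    apply moore hh0 (by simp)
    intro j
    exact congrFun ha j
  have hdegMX : ∀ l, degreeOf l MX.det ≤ k * (Fintype.card F ^ r - 1) := by
    intro l
    apply degreeOf_det_le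
    intro σ
    have h1 : ∀ a b, degreeOf l (MX a b) ≤ Fintype.card F ^ r - 1 := by
      intro a b
      simp only [MX, Matrix.of_apply]
      refine (degreeOf_sum_le l _ _).trans ?_
      apply Finset.sup_le
      intro j _
      refine (degreeOf_mul_le l _ _).trans ?_
      rw [degreeOf_C, zero_add]
      exact degreeOf_circ hq (e b) j l
    refine (Finset.sum_le_sum fun i _ => h1 (σ i) i).trans ?_
    simp
  have hdegP : ∀ l, degreeOf l P < Fintype.card K := by
    intro l
    have h1 := degreeOf_mul_le l (mooreDet (Fintype.card F) n L) MX.det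
    have h2 := degreeOf_mooreDet (L := L) hq l
    have h3 := hdegMX l
    have h4 := pow_bound hq hk hkr
    have h5 : degreeOf l P ≤ degreeOf l (mooreDet (Fintype.card F) n L) + degreeOf l MX.det := h1
    omega
  obtain ⟨x, hx, hxP⟩ : ∃ x : Fin n → L, (∀ j, x j ∈ Finset.univ.image (algebraMap K L)) ∧
      eval x P ≠ 0 := by
    by_contra hcon
    push Not at hcon
    apply hP0
    have h1 := eq_zero_of_eval_zero_at_prod_finset P
      (fun _ => Finset.univ.image (algebraMap K L)) (fun l => by
        rw [Finset.card_image_of_injective _ (algebraMap K L).injective, Finset.card_univ]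
        exact hdegP l) hcon
    rw [h1, map_zero]
  have hx' : ∀ j, ∃ y : K, algebraMap K L y = x j := by
    intro j
    obtain ⟨y, -, hy⟩ := Finset.mem_image.mp (hx j)
    exact ⟨y, hy⟩
  choose h hhx using hx'
  have hxP1 : (Matrix.of fun (t s : Fin n) => x s ^ (Fintype.card F ^ (t : ℕ))).det ≠ 0 := by
    rw [← hmoore]
    have : eval x P = eval x (mooreDet (Fintype.card F) n L) * eval x MX.det := map_mul _ _ _
    rw [this] at hxP
    exact left_ne_zero_of_mul hxP
  have hxP2 : (B * C0 x).det ≠ 0 := by
    rw [← hMX]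
    have : eval x P = eval x (mooreDet (Fintype.card F) n L) * eval x MX.det := map_mul _ _ _
    rw [this] at hxP
    exact right_ne_zero_of_mul hxP
  -- independence of `h` over `F`
  have hhi : LinearIndependent F h := by
    rw [Fintype.linearIndependent_iff]
    intro c hc
    by_contra hcon
    push Not at hcon
    obtain ⟨j0, hj0⟩ := hcon
    apply hxP1
    rw [← Matrix.exists_mulVec_eq_zero_iff]
    refine ⟨fun j => algebraMap F L (c j), ?_, ?_⟩
    · intro h1
      have h2 := congrFun h1 j0
      exact hj0 ((map_eq_zero (algebraMap F L)).mp h2)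
    · funext t
      have h1 := congrArg (algebraMap K L) hc
      rw [map_sum, map_zero] at h1
      have h2 : ∑ j, c j • x j = 0 := by
        rw [← h1]
        refine Finset.sum_congr rfl fun j _ => ?_
        rw [Algebra.smul_def, Algebra.smul_def, map_mul, ← hhx j]
        congr 1
      have h3 := congrArg (fr F L t) h2
      rw [map_sum, map_zero] at h3
      refine Eq.trans ?_ h3
      rw [Matrix.mulVec, dotProduct]
      refine Finset.sum_congr rfl fun j _ => ?_
      rw [map_smul, fr_apply, Algebra.smul_def, mul_comm]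
      rfl
  -- the generator matrix
  have hG : LinearIndependent K (fun i : Fin k => circ (Fintype.card F) h (e i)) := by
    rw [Fintype.linearIndependent_iff]
    intro y hy
    by_contra hcon
    push Not at hcon
    obtain ⟨i0, hi0⟩ := hcon
    apply hxP2
    rw [← Matrix.exists_mulVec_eq_zero_iff]
    refine ⟨fun i => algebraMap K L (y i), ?_, ?_⟩
    · intro h1
      have h2 := congrFun h1 i0
      exact hi0 ((map_eq_zero (algebraMap K L)).mp h2)
    · rw [← Matrix.mulVec_mulVec]
      have h1 : (C0 x).mulVec (fun i => algebraMap K L (y i)) = 0 := by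
        funext j
        have h2 := congrArg (algebraMap K L) (congrFun hy j)
        rw [Finset.sum_apply, map_sum, Pi.zero_apply, map_zero] at h2
        rw [Matrix.mulVec, dotProduct]
        refine Eq.trans ?_ h2
        refine Finset.sum_congr rfl fun i _ => ?_
        rw [Pi.smul_apply, smul_eq_mul, map_mul, circ_map (algebraMap K L), mul_comm]
        congr 1
        simp only [C0, Matrix.of_apply]
        congr 1
        funext l
        rw [hhx]
      rw [h1, Matrix.mulVec_zero]
  -- the dual tuple over `K`
  have hsurj : ∀ y : K, ∃ x : K, x ^ Fintype.card F = y := by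
    have hinj : Function.Injective (fun x : K => x ^ Fintype.card F) := by
      have := (FiniteField.frobeniusAlgHom F K).toRingHom.injective
      intro a b hab
      exact this hab
    exact (Finite.injective_iff_surjective.mp hinj)
  obtain ⟨g, hg, -, hcode⟩ := exists_dual' (F := F) hsurj (k := r) (r := k) (by omega) hhi
  refine ⟨g, hg, fun i => circ (Fintype.card F) h (e i), hG, ?_, ?_⟩
  · apply Submodule.eq_of_le_of_finrank_eq
    · rw [Submodule.span_le]
      rintro w ⟨i, rfl⟩
      rw [SetLike.mem_coe, hcode]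
      intro t ht
      exact circ_orth _ h (e i) ht
    · rw [finrank_span_eq_card hG, Fintype.card_fin, finrank_evalCode (by omega) hg]
  · intro i j hj
    apply circ_zero
    intro l hl
    exact heZ i l (hl ▸ hj)

end Pool.Agent.R558
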