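import Pool.Agent.R558.Cases

/-!
# The induction: generic points make the family independent
-/

open Polynomial

namespace Pool.Agent.R558

section

variable {ι κ : Type*} [DecidableEq ι] [Fintype κ] [DecidableEq κ]

omit [DecidableEq ι] in
lemma mem_cap {S : ι → Finset κ} {Ω : Finset ι} {j : κ} : j ∈ cap S Ω ↔ ∀ i ∈ Ω, j ∈ S i := by
  unfold cap
  simp

omit [DecidableEq ι] in
theorem Good.pred {K : ℕ} {I : Finset ι} {S : ι → Finset κ} {τ : ι → ℕ}
    (h : Good (K + 1) I S τ) (hA : ∀ i ∈ I, 1 ≤ τ i) : Good K I S (fun i => τ i - 1) := by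
  refine ⟨fun i hi => ?_, fun Ω hΩ hne m hm => ?_⟩
  · have h1 := h.lt i hi
    have h2 := hA i hi
    omega
  · have h1 := h.bound Ω hΩ hne (m + 1) (fun i hi => by
      have h2 := hm i hi
      have h3 := hA i (hΩ hi)
      omega)
    have h2 : ∑ i ∈ Ω, (K - (S i).card - (τ i - 1)) = ∑ i ∈ Ω, (K + 1 - (S i).card - τ i) := by
      refine Finset.sum_congr rfl fun i hi => ?_
      have h2 := h.lt i (hΩ hi)
      have h3 := hA i (hΩ hi)
      omega
    rw [h2]
    omega

omit [DecidableEq ι] in
theorem Good.erase {K : ℕ} {I : Finset ι} {S : ι → Finset κ} {τ : ι → ℕ}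
    (h : Good (K + 1) I S τ) {j : κ} (hj : ∀ i ∈ I, j ∈ S i) :
    Good K I (fun i => (S i).erase j) τ := by
  have hc : ∀ i ∈ I, ((S i).erase j).card + 1 = (S i).card := fun i hi =>
    Finset.card_erase_add_one (hj i hi)
  refine ⟨fun i hi => ?_, fun Ω hΩ hne m hm => ?_⟩
  · have h1 := h.lt i hi
    have h2 := hc i hi
    omega
  · have h1 := h.bound Ω hΩ hne m hm
    have h2 : ∑ i ∈ Ω, (K - ((S i).erase j).card - τ i) =
        ∑ i ∈ Ω, (K + 1 - (S i).card - τ i) := by
      refine Finset.sum_congr rfl fun i hi => ?_
      have h2 := hc i (hΩ hi)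
      omega
    have h3 : cap (fun i => (S i).erase j) Ω = (cap S Ω).erase j := by
      ext l
      simp only [mem_cap, Finset.mem_erase]
      constructor
      · intro h4
        obtain ⟨i, hi⟩ := hne
        exact ⟨(h4 i hi).1, fun i hi => (h4 i hi).2⟩
      · rintro ⟨h4, h5⟩ i hi
        exact ⟨h4, h5 i hi⟩
    have h4 : ((cap S Ω).erase j).card + 1 = (cap S Ω).card :=
      Finset.card_erase_add_one (mem_cap.mpr fun i hi => hj i (hΩ hi))
    rw [h2, h3]
    omega

omit [DecidableEq ι] in
theorem Good.mono {k : ℕ} {I J : Finset ι} {S : ι → Finset κ} {τ : ι → ℕ}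
    (h : Good k I S τ) (hJ : J ⊆ I) : Good k J S τ :=
  ⟨fun i hi => h.lt i (hJ hi), fun Ω hΩ => h.bound Ω (hΩ.trans hJ)⟩

theorem Good.merge {k : ℕ} {I : Finset ι} {S : ι → Finset κ} {τ : ι → ℕ}
    (h : Good k I S τ) {Ω : Finset ι} (hΩI : Ω ⊆ I) {i0 : ι} (hi0 : i0 ∈ Ω) {m : ℕ}
    (hm : ∀ i ∈ Ω, m ≤ τ i)
    (ht : ∑ i ∈ Ω, (k - (S i).card - τ i) + (cap S Ω).card + m = k) :
    Good k (insert i0 (I \ Ω)) (Function.update S i0 (cap S Ω)) (Function.update τ i0 m) := by
  have hne : ∀ i ∈ I \ Ω, i ≠ i0 := by
    rintro i hi rfl
    exact (Finset.mem_sdiff.mp hi).2 hi0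
  have hpos : 0 < ∑ i ∈ Ω, (k - (S i).card - τ i) := by
    apply Finset.sum_pos
    · intro i hi
      have := h.lt i (hΩI hi)
      omega
    · exact ⟨i0, hi0⟩
  refine ⟨fun i hi => ?_, fun Θ hΘ hne' m' hm' => ?_⟩
  · rcases Finset.mem_insert.mp hi with rfl | hi
    · rw [Function.update_self, Function.update_self]
      omega
    · rw [Function.update_of_ne (hne i hi), Function.update_of_ne (hne i hi)]
      exact h.lt i (Finset.mem_sdiff.mp hi).1
  · by_cases h0 : i0 ∈ Θ
    · set Θ' := Θ.erase i0 with hΘ'
      have hsub : Θ' ⊆ I \ Ω := by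
        intro i hi
        rw [hΘ', Finset.mem_erase] at hi
        rcases Finset.mem_insert.mp (hΘ hi.2) with h1 | h1
        · exact absurd h1 hi.1
        · exact h1
      have hdisj : Disjoint Ω Θ' := by
        rw [Finset.disjoint_left]
        intro i hi hi'
        exact (Finset.mem_sdiff.mp (hsub hi')).2 hi
      have hm0 : m' ≤ m := by
        have := hm' i0 h0
        rwa [Function.update_self] at this
      have h1 := h.bound (Ω ∪ Θ') (Finset.union_subset hΩI (hsub.trans Finset.sdiff_subset))
        ⟨i0, Finset.mem_union_left _ hi0⟩ m' (fun i hi => by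
          rcases Finset.mem_union.mp hi with h2 | h2
          · exact hm0.trans (hm i h2)
          · have h3 := hm' i (Finset.mem_of_mem_erase h2)
            rwa [Function.update_of_ne (hne i (hsub h2))] at h3)
      rw [Finset.sum_union hdisj] at h1
      have h2 : ∑ i ∈ Θ, (k - (Function.update S i0 (cap S Ω) i).card - Function.update τ i0 m i) =
          (k - (cap S Ω).card - m) + ∑ i ∈ Θ', (k - (S i).card - τ i) := by
        rw [← Finset.add_sum_erase Θ _ h0, Function.update_self, Function.update_self]
        congr 1
        refine Finset.sum_congr rfl fun i hi => ?_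
        rw [Function.update_of_ne (hne i (hsub hi)), Function.update_of_ne (hne i (hsub hi))]
      have h3 : cap (Function.update S i0 (cap S Ω)) Θ = cap S (Ω ∪ Θ') := by
        ext l
        simp only [mem_cap]
        constructor
        · intro h4 i hi
          rcases Finset.mem_union.mp hi with h5 | h5
          · have h6 := h4 i0 h0
            rw [Function.update_self, mem_cap] at h6
            exact h6 i h5
          · have h6 := h4 i (Finset.mem_of_mem_erase h5)
            rwa [Function.update_of_ne (hne i (hsub h5))] at h6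
        · intro h4 i hi
          by_cases h5 : i = i0
          · subst h5
            rw [Function.update_self, mem_cap]
            intro i' hi'
            exact h4 i' (Finset.mem_union_left _ hi')
          · rw [Function.update_of_ne h5]
            exact h4 i (Finset.mem_union_right _ (Finset.mem_erase.mpr ⟨h5, hi⟩))
      rw [h2, h3]
      omega
    · have hsub : Θ ⊆ I \ Ω := by
        intro i hi
        rcases Finset.mem_insert.mp (hΘ hi) with h1 | h1
        · exact absurd (h1 ▸ hi) h0
        · exact h1
      have h1 := h.bound Θ (hsub.trans Finset.sdiff_subset) hne' m' (fun i hi => by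
        have h3 := hm' i hi
        rwa [Function.update_of_ne (hne i (hsub hi))] at h3)
      have h2 : ∑ i ∈ Θ, (k - (Function.update S i0 (cap S Ω) i).card - Function.update τ i0 m i) =
          ∑ i ∈ Θ, (k - (S i).card - τ i) := by
        refine Finset.sum_congr rfl fun i hi => ?_
        rw [Function.update_of_ne (hne i (hsub hi)), Function.update_of_ne (hne i (hsub hi))]
      have h3 : cap (Function.update S i0 (cap S Ω)) Θ = cap S Θ := by
        ext l
        simp only [mem_cap]
        refine forall_congr' fun i => forall_congr' fun hi => ?_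
        rw [Function.update_of_ne (hne i (hsub hi))]
      rw [h2, h3]
      exact h1

omit [DecidableEq ι] in
theorem Good.spec {k : ℕ} {I : Finset ι} {S : ι → Finset κ} {τ : ι → ℕ}
    (h : Good k I S τ) (hA : ∃ i ∈ I, τ i = 0) (hB : ∀ j, ∃ i ∈ I, j ∉ S i)
    (hC : ∀ Ω ⊆ I, 2 ≤ Ω.card → Ω.card < I.card → ∀ m, (∀ i ∈ Ω, m ≤ τ i) →
      ∑ i ∈ Ω, (k - (S i).card - τ i) + (cap S Ω).card + m < k) {j : κ}
    (hD : (∃ i ∈ I, τ i = 0 ∧ j ∉ S i) ∨ ∑ i ∈ I, (k - (S i).card - τ i) + 1 ≤ k) :
    Good k I (fun i => (S i).erase j) (fun i => if j ∈ S i then τ i + 1 else τ i) := by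
  have hlt : ∀ i ∈ I, ((S i).erase j).card + (if j ∈ S i then τ i + 1 else τ i) =
      (S i).card + τ i := by
    intro i _
    split_ifs with h1
    · have := Finset.card_erase_add_one h1
      omega
    · rw [Finset.erase_eq_of_notMem h1]
  have hsum : ∀ Ω ⊆ I, ∑ i ∈ Ω, (k - ((S i).erase j).card -
      (if j ∈ S i then τ i + 1 else τ i)) = ∑ i ∈ Ω, (k - (S i).card - τ i) := by
    intro Ω hΩ
    refine Finset.sum_congr rfl fun i hi => ?_
    have h1 := hlt i (hΩ hi)
    have h2 := h.lt i (hΩ hi)
    omega
  have hcap : ∀ Ω : Finset ι, (cap (fun i => (S i).erase j) Ω).card ≤ (cap S Ω).card := by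
    intro Ω
    apply Finset.card_le_card
    intro l hl
    rw [mem_cap] at hl ⊢
    exact fun i hi => Finset.mem_of_mem_erase (hl i hi)
  refine ⟨fun i hi => ?_, fun Ω hΩ hne m hm => ?_⟩
  · have := hlt i hi
    have h2 := h.lt i hi
    omega
  · rw [hsum Ω hΩ]
    rcases Nat.eq_zero_or_pos m with h0 | h0
    · have h1 := h.bound Ω hΩ hne 0 (fun i _ => Nat.zero_le _)
      have h2 := hcap Ω
      omega
    have hm' : ∀ i ∈ Ω, m - 1 ≤ τ i := by
      intro i hi
      have := hm i hi
      split_ifs at this <;> omega
    rcases Nat.lt_or_ge Ω.card 2 with h1 | h1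
    · have h2 : Ω.card = 1 := by
        have := Finset.card_pos.mpr hne
        omega
      obtain ⟨i, rfl⟩ := Finset.card_eq_one.mp h2
      have h3 : cap (fun i => (S i).erase j) {i} = (S i).erase j := by
        ext l
        simp [mem_cap]
      rw [h3, Finset.sum_singleton]
      have h4 := hlt i (hΩ (Finset.mem_singleton_self i))
      have h5 := hm i (Finset.mem_singleton_self i)
      have h6 := h.lt i (hΩ (Finset.mem_singleton_self i))
      omega
    · rcases Nat.lt_or_ge Ω.card I.card with h2 | h2
      · have h3 := hC Ω hΩ h1 h2 (m - 1) hm'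
        have h4 := hcap Ω
        omega
      · have h3 : Ω = I := Finset.eq_of_subset_of_card_le hΩ h2
        subst h3
        have h4 : (cap S Ω).card = 0 := by
          rw [Finset.card_eq_zero, Finset.eq_empty_iff_forall_notMem]
          intro l hl
          obtain ⟨i, hi, hli⟩ := hB l
          exact hli (mem_cap.mp hl i hi)
        have h5 := hcap Ω
        obtain ⟨i0, hi0, hτ0⟩ := hA
        have h6 : m ≤ 1 := by
          have := hm i0 hi0
          simp only [hτ0] at this
          split_ifs at this <;> omega
        rcases hD with ⟨i, hi, hτ, hji⟩ | hD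
        · have := hm i hi
          simp only [hji, if_false, hτ] at this
          omega
        · omega

end

section

variable {F L : Type*} [Field F] [Fintype F] [Field L] [Algebra F L] [IsAlgClosed L]
variable {ι κ : Type*} [DecidableEq ι] [Fintype κ] [DecidableEq κ]

omit [DecidableEq κ] in
variable (F L κ) in
/-- a nonzero polynomial whose nonvanishing means linear independence over `F` -/
theorem exists_indep_poly : ∃ D : MvPolynomial κ L, D ≠ 0 ∧
    ∀ g : κ → L, MvPolynomial.eval g D ≠ 0 → LinearIndependent F g := by
  classical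
  refine ⟨∏ c ∈ (Finset.univ : Finset (κ → F)).erase 0,
    ∑ j, MvPolynomial.C (algebraMap F L (c j)) * MvPolynomial.X j, ?_, ?_⟩
  · rw [Finset.prod_ne_zero_iff]
    intro c hc h0
    rw [Finset.mem_erase] at hc
    obtain ⟨j, hj⟩ := Function.ne_iff.mp hc.1
    have h1 := congrArg (MvPolynomial.eval (Pi.single j (1 : L))) h0
    rw [map_sum, map_zero, Finset.sum_eq_single j] at h1
    · simp only [map_mul, MvPolynomial.eval_C, MvPolynomial.eval_X, Pi.single_eq_same,
        mul_one, map_eq_zero] at h1
      exact hj h1
    · intro b _ hb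
      simp [hb]
    · simp
  · intro g hg
    rw [map_prod, Finset.prod_ne_zero_iff] at hg
    rw [Fintype.linearIndependent_iff]
    intro c hc
    by_contra hcon
    push Not at hcon
    obtain ⟨j, hj⟩ := hcon
    have hc0 : c ≠ 0 := fun h => hj (by rw [h]; rfl)
    apply hg c (Finset.mem_erase.mpr ⟨hc0, Finset.mem_univ _⟩)
    rw [map_sum, ← hc]
    refine Finset.sum_congr rfl fun i _ => ?_
    simp [Algebra.smul_def]

variable (F) in
/-- the Frobenius image of an independent tuple is independent -/
theorem indep_pow {g : κ → L} (hg : LinearIndependent F g) :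
    LinearIndependent F (fun j => g j ^ Fintype.card F) := by
  rw [Fintype.linearIndependent_iff]
  intro c hc
  have h1 : fr F L 1 (∑ j, c j • g j) = 0 := by
    rw [map_sum, ← hc]
    refine Finset.sum_congr rfl fun j _ => ?_
    rw [map_smul, fr_apply, pow_one]
  have h2 : ∑ j, c j • g j = 0 := by
    rw [fr_apply, pow_one] at h1
    exact pow_eq_zero_iff (by have := one_lt_q (F := F); omega) |>.mp h1
  exact Fintype.linearIndependent_iff.mp hg c h2

/-- for independent points, a vector with first coordinate zero and `k - 1` zeros vanishes -/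
theorem vanish {K : ℕ} {T : Finset κ} {g : κ → L} (hg : LinearIndependent F g) (hT : T.card = K)
    {a : ℕ → L} (h0 : a 0 = 0)
    (h : ∀ j ∈ T, ∑ t ∈ Finset.range (K + 1), a t * g j ^ (Fintype.card F ^ t) = 0) :
    ∀ t < K + 1, a t = 0 := by
  have hind : LinearIndependent F (fun j : T => g j ^ Fintype.card F) :=
    (indep_pow F hg).comp (fun j : T => (j : κ)) Subtype.coe_injective
  have key := moore (F := F) hind (k := K) (by simp [hT]) (fun t : Fin K => a ((t : ℕ) + 1)) ?_
  · intro t ht
    rcases t with _ | t
    · exact h0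
    · exact congrFun key ⟨t, by omega⟩
  · intro j
    have h1 := h j j.2
    rw [Finset.sum_range_succ', h0, zero_mul, add_zero, Finset.sum_range] at h1
    rw [← h1]
    refine Finset.sum_congr rfl fun t _ => ?_
    rw [← pow_mul, pow_succ, mul_comm (Fintype.card F)]

/-- **Existence of points making the family independent.** -/
theorem main_exists (k : ℕ) : ∀ (I : Finset ι) (S : ι → Finset κ) (τ : ι → ℕ), Good k I S τ →
    ∃ g : κ → L, Inj (Fintype.card F) k I S τ g := by
  have hq : 1 < Fintype.card F := one_lt_q
  have : Infinite L := IsAlgClosed.instInfinite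
  obtain ⟨Dind, hDind0, hDind⟩ := exists_indep_poly F L κ
  induction k using Nat.strong_induction_on with
  | _ k ihk =>
  have step : ∀ c : ℕ, ∀ I : Finset ι, I.card = c → ∀ (S : ι → Finset κ) (τ : ι → ℕ),
      Good k I S τ → ∃ g : κ → L, Inj (Fintype.card F) k I S τ g := by
    intro c
    induction c using Nat.strong_induction_on with
    | _ c ihc =>
    intro I hc
    have step2 : ∀ s : ℕ, ∀ (S : ι → Finset κ) (τ : ι → ℕ), (∑ i ∈ I, (S i).card) = s →
        Good k I S τ → ∃ g : κ → L, Inj (Fintype.card F) k I S τ g := by
      intro s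
      induction s using Nat.strong_induction_on with
      | _ s ihs =>
      intro S τ hs hG
      by_cases h1 : I.card ≤ 1
      · refine ⟨0, fun a _ _ h3 i hi t ht => ?_⟩
        have h4 := h3 t ht
        have h5 : I = {i} := by
          apply Finset.eq_singleton_iff_unique_mem.mpr
          exact ⟨hi, fun x hx => Finset.card_le_one.mp h1 x hx i hi⟩
        rw [h5, Finset.sum_singleton] at h4
        exact h4
      have h1' : 2 ≤ I.card := by omega
      obtain ⟨iₓ, hiₓ⟩ : I.Nonempty := Finset.card_pos.mp (by omega)
      obtain ⟨K, hK⟩ : ∃ K, k = K + 1 := ⟨k - 1, by have := hG.lt iₓ hiₓ; omega⟩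
      by_cases hA : ∀ i ∈ I, 1 ≤ τ i
      · subst hK
        obtain ⟨g', hg'⟩ := ihk K (by omega) I S _ (hG.pred hA)
        exact caseA hA hg'
      by_cases hB : ∃ j, ∀ i ∈ I, j ∈ S i
      · obtain ⟨j, hj⟩ := hB
        subst hK
        obtain ⟨g', hg'⟩ := ihk K (by omega) I _ τ (hG.erase hj)
        exact caseB j hj hg'
      by_cases hC : ∃ Ω ⊆ I, 2 ≤ Ω.card ∧ Ω.card < I.card ∧ ∃ m, (∀ i ∈ Ω, m ≤ τ i) ∧
          ∑ i ∈ Ω, (k - (S i).card - τ i) + (cap S Ω).card + m = k
      · obtain ⟨Ω, hΩI, hΩ2, hΩc, m, hm, ht⟩ := hC
        obtain ⟨i0, hi0⟩ : Ω.Nonempty := Finset.card_pos.mp (by omega)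
        obtain ⟨g1, hg1⟩ := ihc Ω.card (by omega) Ω rfl S τ (hG.mono hΩI)
        have hcard : (insert i0 (I \ Ω)).card < I.card := by
          have h2 := Finset.card_insert_le i0 (I \ Ω)
          have h3 := Finset.card_sdiff_add_card_eq_card hΩI
          omega
        obtain ⟨g2, hg2⟩ := ihc _ (by omega) (insert i0 (I \ Ω)) rfl _ _
          (hG.merge hΩI hi0 hm ht)
        obtain ⟨Δ, hΔ0, hΔ⟩ := hg1.exists_poly
        have hΔne : Δ ≠ 0 := by
          rintro rfl
          simp at hΔ0
        obtain ⟨g, hg3, hg4⟩ := hg2.exists_and Δ hΔne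
        exact ⟨g, caseC hΩI hi0 hm (hΔ g hg3) hg4⟩
      push Not at hA hB hC
      obtain ⟨i1, hi1, hτ1⟩ := hA
      have hτ1' : τ i1 = 0 := by omega
      have hC' : ∀ Ω ⊆ I, 2 ≤ Ω.card → Ω.card < I.card → ∀ m, (∀ i ∈ Ω, m ≤ τ i) →
          ∑ i ∈ Ω, (k - (S i).card - τ i) + (cap S Ω).card + m < k := by
        intro Ω hΩ h2 h3 m hm
        have h4 := hG.bound Ω hΩ (Finset.card_pos.mp (by omega)) m hm
        have h5 := hC Ω hΩ h2 h3 m hm
        omega
      by_cases hD : ∃ j, (∃ i ∈ I, j ∈ S i) ∧ ((∃ i ∈ I, τ i = 0 ∧ j ∉ S i) ∨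
          ∑ i ∈ I, (k - (S i).card - τ i) + 1 ≤ k)
      · obtain ⟨j, ⟨i2, hi2, hji2⟩, hD⟩ := hD
        have hG' := hG.spec ⟨i1, hi1, hτ1'⟩ hB hC' hD
        have hlt : ∑ i ∈ I, ((S i).erase j).card < s := by
          rw [← hs]
          apply Finset.sum_lt_sum
          · intro i _
            exact Finset.card_le_card (Finset.erase_subset _ _)
          · exact ⟨i2, hi2, Finset.card_erase_lt_of_mem hji2⟩
        obtain ⟨g', hg'⟩ := ihs _ hlt _ _ rfl hG'
        exact caseD j hq hg'
      · push Not at hD
        -- all sets are contained in `S i1`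
        have hsub : ∀ i ∈ I, S i ⊆ S i1 := by
          intro i hi j hj
          by_contra hcon
          exact hcon ((hD j ⟨i, hi, hj⟩).1 i1 hi1 hτ1')
        have huniq : ∀ i ∈ I, i ≠ i1 → 1 ≤ τ i := by
          intro i hi hne
          by_contra hcon
          have hτi : τ i = 0 := by omega
          have hsub2 : S i1 ⊆ S i := by
            intro j hj
            exact (hD j ⟨i1, hi1, hj⟩).1 i hi hτi
          have heq : S i = S i1 := Finset.Subset.antisymm (hsub i hi) hsub2
          have h2 := hG.bound {i, i1} (by
            intro x hx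
            rcases Finset.mem_insert.mp hx with rfl | hx
            · exact hi
            · rw [Finset.mem_singleton.mp hx]; exact hi1) ⟨i, by simp⟩ 0 (fun _ _ => Nat.zero_le _)
          rw [Finset.sum_pair hne] at h2
          have h3 : cap S {i, i1} = S i1 := by
            ext l
            simp [mem_cap, heq]
          rw [h3, heq, hτi, hτ1'] at h2
          have h4 := hG.lt i1 hi1
          omega
        have ha0 : ∀ a : ι → ℕ → L, (∀ i ∈ I, ∀ t < τ i, a i t = 0) →
            (∀ t < k, ∑ i ∈ I, a i t = 0) → a i1 0 = 0 := by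
          intro a h2 h3
          have h4 := h3 0 (by omega)
          rw [Finset.sum_eq_single i1] at h4
          · exact h4
          · intro b hb hb1
            exact h2 b hb 0 (huniq b hb hb1)
          · intro h5
            exact absurd hi1 h5
        rcases Nat.lt_or_ge ((S i1).card + 1) k with hk1 | hk1
        · -- raise `τ i1` to 1
          have hG' : Good k I S (Function.update τ i1 1) := by
            refine ⟨fun i hi => ?_, fun Ω hΩ hne m hm => ?_⟩
            · by_cases h2 : i = i1
              · subst h2
                rw [Function.update_self]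
                exact hk1
              · rw [Function.update_of_ne h2]
                exact hG.lt i hi
            · by_cases h2 : i1 ∈ Ω
              · have h3 := hG.bound Ω hΩ hne 0 (fun _ _ => Nat.zero_le _)
                have h4 : m ≤ 1 := by
                  have := hm i1 h2
                  rwa [Function.update_self] at this
                rw [← Finset.add_sum_erase Ω _ h2] at h3 ⊢
                rw [Function.update_self]
                have h5 : ∑ i ∈ Ω.erase i1, (k - (S i).card - Function.update τ i1 1 i) =
                    ∑ i ∈ Ω.erase i1, (k - (S i).card - τ i) := by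
                  refine Finset.sum_congr rfl fun i hi => ?_
                  rw [Function.update_of_ne (Finset.mem_erase.mp hi).1]
                rw [h5]
                omega
              · have h5 : ∑ i ∈ Ω, (k - (S i).card - Function.update τ i1 1 i) =
                    ∑ i ∈ Ω, (k - (S i).card - τ i) := by
                  refine Finset.sum_congr rfl fun i hi => ?_
                  rw [Function.update_of_ne]
                  rintro rfl
                  exact h2 hi
                rw [h5]
                apply hG.bound Ω hΩ hne m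
                intro i hi
                have := hm i hi
                rwa [Function.update_of_ne] at this
                rintro rfl
                exact h2 hi
          have hA' : ∀ i ∈ I, 1 ≤ Function.update τ i1 1 i := by
            intro i hi
            by_cases h2 : i = i1
            · subst h2
              rw [Function.update_self]
            · rw [Function.update_of_ne h2]
              exact huniq i hi h2
          subst hK
          obtain ⟨g', hg'⟩ := ihk K (by omega) I S _ (hG'.pred hA')
          obtain ⟨g, hg⟩ := caseA hA' hg'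
          refine ⟨g, fun a h2 h3 h4 => hg a (fun i hi t ht => ?_) h3 h4⟩
          by_cases h5 : i = i1
          · subst h5
            rw [Function.update_self] at ht
            have : t = 0 := by omega
            rw [this]
            exact ha0 a h2 h4
          · rw [Function.update_of_ne h5] at ht
            exact h2 i hi t ht
        · -- drop `i1`
          have hk2 : (S i1).card = K := by
            have := hG.lt i1 hi1
            omega
          have hA' : ∀ i ∈ I.erase i1, 1 ≤ τ i := by
            intro i hi
            rw [Finset.mem_erase] at hi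
            exact huniq i hi.2 hi.1
          have hG' := hG.mono (Finset.erase_subset i1 I)
          subst hK
          obtain ⟨g', hg'⟩ := ihk K (by omega) (I.erase i1) S _ (hG'.pred hA')
          obtain ⟨g0, hg0⟩ := caseA hA' hg'
          obtain ⟨g, hgD, hg⟩ := hg0.exists_and Dind hDind0
          have hind := hDind g hgD
          refine ⟨g, fun a h2 h3 h4 => ?_⟩
          have h5 : ∀ t < K + 1, a i1 t = 0 :=
            vanish hind hk2 (ha0 a h2 h4) (h3 i1 hi1)
          have h6 := hg a (fun i hi => h2 i (Finset.mem_of_mem_erase hi))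
            (fun i hi => h3 i (Finset.mem_of_mem_erase hi)) (fun t ht => by
              have h7 := h4 t ht
              rw [← Finset.add_sum_erase I _ hi1, h5 t ht, zero_add] at h7
              exact h7)
          intro i hi t ht
          by_cases h7 : i = i1
          · rw [h7]
            exact h5 t ht
          · exact h6 i (Finset.mem_erase.mpr ⟨h7, hi⟩) t ht
    intro S τ hG
    exact step2 _ S τ rfl hG
  intro I S τ hG
  exact step _ I rfl S τ hG

end

end Pool.Agent.R558
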