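import Mathlib

/-!
# Linearized polynomials: the Moore lemma and duality of evaluation tuples
-/

open Polynomial

namespace Pool.Agent.R558

section

variable {F E : Type*} [Field F] [Fintype F] [Field E] [Algebra F E]

variable (F E) in
/-- the `t`-th power of the `q`-Frobenius, `x ↦ x ^ (q ^ t)` -/
noncomputable def fr (t : ℕ) : E →ₐ[F] E := (FiniteField.frobeniusAlgHom F E) ^ t

lemma fr_apply (t : ℕ) (x : E) : fr F E t x = x ^ (Fintype.card F ^ t) := by
  unfold fr
  rw [AlgHom.coe_pow, FiniteField.coe_frobeniusAlgHom, pow_iterate]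

lemma one_lt_q : 1 < Fintype.card F := Fintype.one_lt_card

/-- a linearized polynomial of `q`-degree less than `k` which vanishes at at least `k` linearly
independent points is zero -/
theorem moore {κ : Type*} [Fintype κ] {x : κ → E} (hx : LinearIndependent F x) {k : ℕ}
    (hk : k ≤ Fintype.card κ) (a : Fin k → E)
    (ha : ∀ j, ∑ t : Fin k, a t * x j ^ (Fintype.card F ^ (t : ℕ)) = 0) : a = 0 := by
  classical
  have hq : 1 < Fintype.card F := one_lt_q
  set p : E[X] := ∑ t : Fin k, C (a t) * X ^ (Fintype.card F ^ (t : ℕ)) with hp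
  have hcoef : ∀ t : Fin k, p.coeff (Fintype.card F ^ (t : ℕ)) = a t := by
    intro t
    rw [hp, finsetSum_coeff]
    rw [Finset.sum_eq_single t]
    · simp
    · intro b _ hb
      rw [coeff_C_mul_X_pow, if_neg]
      intro h
      exact hb (Fin.ext (Nat.pow_right_injective hq h).symm)
    · simp
  have hdeg : p.natDegree < Fintype.card F ^ Fintype.card κ := by
    rcases Nat.eq_zero_or_pos k with h0 | h0
    · subst h0
      simp [hp]
      positivity
    · have h1 : p.natDegree ≤ Fintype.card F ^ (k - 1) := by
        rw [hp]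
        apply natDegree_sum_le_of_forall_le
        intro t _
        refine (natDegree_C_mul_X_pow_le _ _).trans ?_
        apply Nat.pow_le_pow_right (by omega)
        have := t.isLt
        omega
      refine lt_of_le_of_lt h1 ?_
      apply Nat.pow_lt_pow_right hq
      omega
  have hinj : Function.Injective (fun c : κ → F => ∑ j, c j • x j) := by
    intro c d hcd
    have h1 : ∑ j, (c j - d j) • x j = 0 := by
      simp only [sub_smul, Finset.sum_sub_distrib]
      exact sub_eq_zero.mpr hcd
    have h2 := Fintype.linearIndependent_iff.mp hx _ h1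
    funext j
    exact sub_eq_zero.mp (h2 j)
  have hev : ∀ c : κ → F, p.eval (∑ j, c j • x j) = 0 := by
    intro c
    rw [hp, eval_finsetSum]
    simp only [eval_mul, eval_C, eval_pow, eval_X]
    have h1 : ∀ t : Fin k, (∑ j, c j • x j) ^ (Fintype.card F ^ (t : ℕ)) =
        ∑ j, c j • x j ^ (Fintype.card F ^ (t : ℕ)) := by
      intro t
      rw [← fr_apply (F := F), map_sum]
      refine Finset.sum_congr rfl fun j _ => ?_
      rw [map_smul, fr_apply]
    simp only [h1, Finset.mul_sum]
    rw [Finset.sum_comm]
    apply Finset.sum_eq_zero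
    intro j _
    have h2 : ∀ t : Fin k, a t * c j • x j ^ (Fintype.card F ^ (t : ℕ)) =
        c j • (a t * x j ^ (Fintype.card F ^ (t : ℕ))) := by
      intro t
      rw [mul_smul_comm]
    simp only [h2]
    rw [← Finset.smul_sum, ha, smul_zero]
  have hp0 : p = 0 := by
    apply Polynomial.eq_zero_of_natDegree_lt_card_of_eval_eq_zero p hinj hev
    rw [Fintype.card_fun]
    exact hdeg
  funext t
  rw [← hcoef t, hp0]
  simp

/-- the image of an independent tuple under a power of Frobenius is independent; here in the
form used below: a root of an independent tuple is independent -/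
theorem indep_of_root {κ : Type*} [Fintype κ] {x y : κ → E} (hx : LinearIndependent F x) (t : ℕ)
    (hy : ∀ j, y j ^ (Fintype.card F ^ t) = x j) : LinearIndependent F y := by
  rw [Fintype.linearIndependent_iff]
  intro c hc
  have h1 : ∑ j, c j • x j = 0 := by
    have h2 := congrArg (fr F E t) hc
    rw [map_sum, map_zero] at h2
    rw [← h2]
    refine Finset.sum_congr rfl fun j _ => ?_
    rw [map_smul, fr_apply, hy]
  exact Fintype.linearIndependent_iff.mp hx c h1

/-- surjectivity of powers of Frobenius -/
lemma exists_root (hs : ∀ y : E, ∃ x : E, x ^ Fintype.card F = y) (t : ℕ) :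
    ∀ y : E, ∃ x : E, x ^ (Fintype.card F ^ t) = y := by
  induction t with
  | zero => intro y; exact ⟨y, by simp⟩
  | succ t ih =>
    intro y
    obtain ⟨z, hz⟩ := hs y
    obtain ⟨x, hx⟩ := ih z
    refine ⟨x, ?_⟩
    rw [pow_succ, pow_mul, hx, hz]

/-- the dual tuple -/
theorem exists_dual (hs : ∀ y : E, ∃ x : E, x ^ Fintype.card F = y) {N k r : ℕ}
    (hkr : k + r = N + 1) (hk : 1 ≤ k) (hr : 1 ≤ r) {x : Fin (N + 1) → E}
    (hx : LinearIndependent F x) :
    ∃ h : Fin (N + 1) → E, LinearIndependent F h ∧ ∀ s < k, ∀ t < r,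
      ∑ j, x j ^ (Fintype.card F ^ s) * h j ^ (Fintype.card F ^ t) = 0 := by
  classical
  choose y hy using fun j => exists_root (F := F) hs (r - 1) (x j)
  have hyi : LinearIndependent F y := indep_of_root hx (r - 1) hy
  -- the kernel vector
  let Φ : (Fin (N + 1) → E) →ₗ[E] (Fin N → E) :=
    { toFun := fun h u => ∑ j, y j ^ (Fintype.card F ^ (u : ℕ)) * h j
      map_add' := by
        intro a b
        funext u
        simp only [Pi.add_apply, mul_add, Finset.sum_add_distrib]
      map_smul' := by
        intro c a
        funext u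
        simp only [Pi.smul_apply, smul_eq_mul, RingHom.id_apply, Finset.mul_sum]
        refine Finset.sum_congr rfl fun j _ => ?_
        ring }
  have hker : LinearMap.ker Φ ≠ ⊥ := by
    apply LinearMap.ker_ne_bot_of_finrank_lt
    simp
  obtain ⟨h, hmem, hne⟩ := (Submodule.ne_bot_iff _).mp hker
  have hΦ : ∀ u < N, ∑ j, y j ^ (Fintype.card F ^ u) * h j = 0 := by
    intro u hu
    have h1 : Φ h = 0 := hmem
    exact congrFun h1 ⟨u, hu⟩
  refine ⟨h, ?_, ?_⟩
  · rw [Fintype.linearIndependent_iff]
    intro b hb
    by_contra hcon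
    push Not at hcon
    obtain ⟨j0, hj0⟩ := hcon
    -- the square matrix with rows b and the Frobenius powers
    let A : Matrix (Fin (N + 1)) (Fin (N + 1)) E := fun i j =>
      Fin.cases (algebraMap F E (b j)) (fun u : Fin N => y j ^ (Fintype.card F ^ (u : ℕ))) i
    have hA : A.mulVec h = 0 := by
      funext i
      refine Fin.cases ?_ (fun u => ?_) i
      · change ∑ j, algebraMap F E (b j) * h j = 0
        rw [← hb]
        refine Finset.sum_congr rfl fun j _ => ?_
        rw [Algebra.smul_def]
      · exact hΦ u u.isLt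
    have hdet : A.det = 0 := Matrix.exists_mulVec_eq_zero_iff.mp ⟨h, hne, hA⟩
    obtain ⟨c, hc0, hc⟩ := Matrix.exists_vecMul_eq_zero_iff.mpr hdet
    have hcj : ∀ j, c 0 * algebraMap F E (b j) +
        ∑ u : Fin N, c u.succ * y j ^ (Fintype.card F ^ (u : ℕ)) = 0 := by
      intro j
      have h1 := congrFun hc j
      rw [Matrix.vecMul, dotProduct, Fin.sum_univ_succ] at h1
      exact h1
    have hc00 : c 0 ≠ 0 := by
      intro h0
      have h1 : (fun u : Fin N => c u.succ) = 0 := by
        apply moore hyi (by simp)
        intro j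
        have := hcj j
        rw [h0, zero_mul, zero_add] at this
        exact this
      apply hc0
      funext i
      refine Fin.cases h0 (fun u => ?_) i
      exact congrFun h1 u
    -- a_u with b_j = ∑ a_u y_j^{q^u}
    obtain ⟨a, ha⟩ : ∃ a : Fin N → E, ∀ j, algebraMap F E (b j) =
        ∑ u : Fin N, a u * y j ^ (Fintype.card F ^ (u : ℕ)) := by
      refine ⟨fun u => -(c 0)⁻¹ * c u.succ, fun j => ?_⟩
      have h1 := hcj j
      have h2 : algebraMap F E (b j) = -(c 0)⁻¹ *
          ∑ u : Fin N, c u.succ * y j ^ (Fintype.card F ^ (u : ℕ)) := by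
        have h3 : ∑ u : Fin N, c u.succ * y j ^ (Fintype.card F ^ (u : ℕ)) =
            - (c 0 * algebraMap F E (b j)) := by
          linear_combination h1
        rw [h3]
        field_simp
      rw [h2, Finset.mul_sum]
      refine Finset.sum_congr rfl fun u _ => ?_
      ring
    -- coefficients of A^q - A
    let z : Fin (N + 1) → E := fun i =>
      (Fin.cases 0 (fun u : Fin N => a u ^ Fintype.card F) i : E) -
      (Fin.lastCases 0 (fun u : Fin N => a u) i : E)
    have hz : z = 0 := by
      apply moore hyi (by simp)
      intro j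
      have h1 : ∑ i : Fin (N + 1), z i * y j ^ (Fintype.card F ^ (i : ℕ)) =
          ∑ i : Fin (N + 1), (Fin.cases 0 (fun u : Fin N => a u ^ Fintype.card F) i : E) *
            y j ^ (Fintype.card F ^ (i : ℕ)) -
          ∑ i : Fin (N + 1), (Fin.lastCases 0 (fun u : Fin N => a u) i : E) *
            y j ^ (Fintype.card F ^ (i : ℕ)) := by
        rw [← Finset.sum_sub_distrib]
        refine Finset.sum_congr rfl fun i _ => ?_
        ring
      rw [h1, Fin.sum_univ_succ, Fin.sum_univ_castSucc (f := fun i : Fin (N + 1) =>
        (Fin.lastCases 0 (fun u : Fin N => a u) i : E) * y j ^ (Fintype.card F ^ (i : ℕ)))]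
      simp only [Fin.cases_zero, Fin.cases_succ, Fin.lastCases_last, Fin.lastCases_castSucc,
        zero_mul, zero_add, add_zero, Fin.val_succ, Fin.val_castSucc]
      rw [← ha j]
      have h2 : ∑ u : Fin N, a u ^ Fintype.card F * y j ^ (Fintype.card F ^ ((u : ℕ) + 1)) =
          (algebraMap F E (b j)) ^ Fintype.card F := by
        rw [ha j]
        have h3 : ∀ w : E, w ^ Fintype.card F = fr F E 1 w := by
          intro w
          rw [fr_apply, pow_one]
        rw [h3, map_sum]
        refine Finset.sum_congr rfl fun u _ => ?_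
        rw [map_mul, fr_apply, fr_apply, pow_one, ← pow_mul, pow_succ]
      rw [h2, ← map_pow, FiniteField.pow_card]
      ring
    have hz0 : ∀ u : Fin N, a u = 0 := by
      have h1 : ∀ m : ℕ, ∀ hm : m < N, a ⟨m, hm⟩ = 0 := by
        intro m
        induction m with
        | zero =>
          intro hm
          have h2 := congrFun hz (Fin.castSucc ⟨0, hm⟩)
          have h3 : (Fin.castSucc ⟨0, hm⟩ : Fin (N + 1)) = 0 := rfl
          simp only [z, Fin.lastCases_castSucc, Pi.zero_apply] at h2
          rw [h3, Fin.cases_zero] at h2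
          linear_combination -h2
        | succ m ih =>
          intro hm
          have h2 := congrFun hz (Fin.castSucc ⟨m + 1, hm⟩)
          have h3 : (Fin.castSucc ⟨m + 1, hm⟩ : Fin (N + 1)) = Fin.succ ⟨m, by omega⟩ := rfl
          simp only [z, Fin.lastCases_castSucc, Pi.zero_apply] at h2
          rw [h3, Fin.cases_succ, ih (by omega), zero_pow (by have := one_lt_q (F := F); omega)] at h2
          linear_combination -h2
      intro u
      exact h1 u u.isLt
    have hb0 : algebraMap F E (b j0) = 0 := by
      rw [ha j0]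
      apply Finset.sum_eq_zero
      intro u _
      rw [hz0 u, zero_mul]
    exact hj0 ((map_eq_zero _).mp hb0)
  · intro s hs' t ht
    have h1 : ∀ j, x j ^ (Fintype.card F ^ s) * h j ^ (Fintype.card F ^ t) =
        fr F E t (y j ^ (Fintype.card F ^ (r - 1 + s - t)) * h j) := by
      intro j
      rw [map_mul, fr_apply, fr_apply, ← pow_mul, ← hy j, ← pow_mul]
      congr 2
      rw [← pow_add, ← pow_add]
      congr 1
      omega
    simp only [h1]
    rw [← map_sum, hΦ _ (by omega), map_zero]

end

end Pool.Agent.R558
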