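import Pool.Agent.R558.Moore

/-!
# Independence of spaces of linearized polynomials with prescribed zeros: generic points
-/

open Polynomial

namespace Pool.Agent.R558

/-- openness of injectivity: a matrix over an algebra whose specialization at one point is
injective is injective at all points where a certain element does not vanish -/
theorem open_inj {L R V W : Type*} [Field L] [CommRing R] [Algebra L R] [Fintype V] [Fintype W]
    [DecidableEq V] [DecidableEq W] (A : Matrix W V R) (φ0 : R →ₐ[L] L)
    (h0 : ∀ v, (A.map φ0).mulVec v = 0 → v = 0) :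
    ∃ r : R, φ0 r ≠ 0 ∧ ∀ φ : R →ₐ[L] L, φ r ≠ 0 → ∀ v, (A.map φ).mulVec v = 0 → v = 0 := by
  have hker : LinearMap.ker (A.map φ0).mulVecLin = ⊥ := by
    rw [LinearMap.ker_eq_bot']
    intro v hv
    exact h0 v hv
  obtain ⟨g, hg⟩ := LinearMap.exists_leftInverse_of_injective (A.map φ0).mulVecLin hker
  set B : Matrix V W L := LinearMap.toMatrix' g with hB
  have hBA : B * A.map φ0 = 1 := by
    have h1 : LinearMap.toMatrix' (g ∘ₗ (A.map φ0).mulVecLin) = 1 := by
      rw [hg, LinearMap.toMatrix'_id]
    rw [LinearMap.toMatrix'_comp] at h1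
    rw [← h1, hB]
    congr 1
    rw [← Matrix.toLin'_apply', LinearMap.toMatrix'_toLin']
  refine ⟨(B.map (algebraMap L R) * A).det, ?_, ?_⟩
  · have h1 : φ0 ((B.map (algebraMap L R) * A).det) = (B * A.map φ0).det := by
      rw [AlgHom.map_det]
      congr 1
      change ((B.map (algebraMap L R)) * A).map φ0 = _
      rw [Matrix.map_mul]
      congr 1
      ext i j
      simp
    rw [h1, hBA, Matrix.det_one]
    exact one_ne_zero
  · intro φ hφ v hv
    have h1 : φ ((B.map (algebraMap L R) * A).det) = (B * A.map φ).det := by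
      rw [AlgHom.map_det]
      congr 1
      change ((B.map (algebraMap L R)) * A).map φ = _
      rw [Matrix.map_mul]
      congr 1
      ext i j
      simp
    rw [h1] at hφ
    by_contra hne
    apply hφ
    rw [← Matrix.exists_mulVec_eq_zero_iff]
    refine ⟨v, hne, ?_⟩
    rw [← Matrix.mulVec_mulVec, hv, Matrix.mulVec_zero]

section

variable {L : Type*} [Field L] {ι κ : Type*} [DecidableEq ι] [Fintype κ] [DecidableEq κ]

/-- The family of spaces `{a : a_t = 0 (t < τ_i), ∑_{t<k} a_t g_j^{q^t} = 0 (j ∈ S_i)}`, `i ∈ I`, of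
vectors of length `k` is independent. -/
def Inj (q k : ℕ) (I : Finset ι) (S : ι → Finset κ) (τ : ι → ℕ) (g : κ → L) : Prop :=
  ∀ a : ι → ℕ → L, (∀ i ∈ I, ∀ t < τ i, a i t = 0) →
    (∀ i ∈ I, ∀ j ∈ S i, ∑ t ∈ Finset.range k, a i t * g j ^ (q ^ t) = 0) →
    (∀ t < k, ∑ i ∈ I, a i t = 0) → ∀ i ∈ I, ∀ t < k, a i t = 0

/-- the common elements of the sets `S_i`, `i ∈ Ω` -/
def cap (S : ι → Finset κ) (Ω : Finset ι) : Finset κ :=
  Finset.univ.filter fun j => ∀ i ∈ Ω, j ∈ S i

/-- the combinatorial condition -/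
structure Good (k : ℕ) (I : Finset ι) (S : ι → Finset κ) (τ : ι → ℕ) : Prop where
  lt : ∀ i ∈ I, (S i).card + τ i < k
  bound : ∀ Ω ⊆ I, Ω.Nonempty → ∀ m : ℕ, (∀ i ∈ Ω, m ≤ τ i) →
    ∑ i ∈ Ω, (k - (S i).card - τ i) + (cap S Ω).card + m ≤ k

/-- the matrix of the conditions -/
noncomputable def condMat {R : Type*} [CommRing R] (q k : ℕ) (I : Finset ι) (S : ι → Finset κ)
    (τ : ι → ℕ) (g : κ → R) :
    Matrix ((I × Fin k) ⊕ ((I × κ) ⊕ Fin k)) (I × Fin k) R := fun w v =>
  match w with
  | Sum.inl (i, t) => if (i, t) = v ∧ (t : ℕ) < τ i then 1 else 0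
  | Sum.inr (Sum.inl (i, j)) => if i = v.1 ∧ j ∈ S i then g j ^ (q ^ (v.2 : ℕ)) else 0
  | Sum.inr (Sum.inr t) => if t = v.2 then 1 else 0

theorem inj_iff (q k : ℕ) (I : Finset ι) (S : ι → Finset κ) (τ : ι → ℕ) (g : κ → L) :
    Inj q k I S τ g ↔ ∀ v, (condMat q k I S τ g).mulVec v = 0 → v = 0 := by
  constructor
  · intro h v hv
    let a : ι → ℕ → L := fun i t =>
      if h : i ∈ I ∧ t < k then v (⟨i, h.1⟩, ⟨t, h.2⟩) else 0
    have ha : ∀ (i : I) (t : Fin k), a i t = v (i, t) := by
      intro i t
      simp only [a]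
      rw [dif_pos ⟨i.2, t.2⟩]
    have key := h a ?_ ?_ ?_
    · funext ⟨i, t⟩
      rw [← ha]
      exact key i i.2 t t.2
    · intro i hi t ht
      by_cases htk : t < k
      · have h1 := congrFun hv (Sum.inl (⟨i, hi⟩, ⟨t, htk⟩))
        rw [Matrix.mulVec, dotProduct, Finset.sum_eq_single (⟨i, hi⟩, ⟨t, htk⟩)] at h1
        · simp only [condMat, ht, and_self, if_true, one_mul, Pi.zero_apply] at h1
          rw [← h1]
          exact ha ⟨i, hi⟩ ⟨t, htk⟩
        · intro b _ hb
          simp only [condMat]
          rw [if_neg, zero_mul]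
          rintro ⟨h2, -⟩
          exact hb h2.symm
        · simp
      · simp only [a]
        rw [dif_neg]
        rintro ⟨-, h2⟩
        exact htk h2
    · intro i hi j hj
      have h1 := congrFun hv (Sum.inr (Sum.inl (⟨i, hi⟩, j)))
      rw [Matrix.mulVec, dotProduct, Fintype.sum_prod_type, Finset.sum_eq_single ⟨i, hi⟩] at h1
      · simp only [condMat, hj, and_self, if_true, Pi.zero_apply] at h1
        rw [Finset.sum_range, ← h1]
        refine Finset.sum_congr rfl fun t _ => ?_
        rw [mul_comm]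
        congr 1
        exact ha ⟨i, hi⟩ t
      · intro b _ hb
        apply Finset.sum_eq_zero
        intro t _
        simp only [condMat]
        rw [if_neg, zero_mul]
        rintro ⟨h2, -⟩
        exact hb h2.symm
      · simp
    · intro t ht
      have h1 := congrFun hv (Sum.inr (Sum.inr ⟨t, ht⟩))
      rw [Matrix.mulVec, dotProduct, Fintype.sum_prod_type] at h1
      simp only [condMat, Pi.zero_apply] at h1
      rw [← Finset.sum_coe_sort, ← h1]
      refine Finset.sum_congr rfl fun i _ => ?_
      rw [Finset.sum_eq_single ⟨t, ht⟩]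
      · simp only [if_true, one_mul]
        exact ha i ⟨t, ht⟩
      · intro b _ hb
        rw [if_neg (Ne.symm hb), zero_mul]
      · simp
  · intro h a h1 h2 h3 i hi t ht
    have key := h (fun v => a v.1 v.2) ?_
    · exact congrFun key (⟨i, hi⟩, ⟨t, ht⟩)
    · funext w
      rw [Matrix.mulVec, dotProduct]
      rcases w with ⟨i, t⟩ | ⟨i, j⟩ | t
      · rw [Finset.sum_eq_single (i, t)]
        · simp only [condMat, true_and, Pi.zero_apply]
          split_ifs with h4
          · rw [h1 i i.2 t h4, mul_zero]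
          · rw [zero_mul]
        · intro b _ hb
          simp only [condMat]
          rw [if_neg, zero_mul]
          rintro ⟨h4, -⟩
          exact hb h4.symm
        · simp
      · rw [Fintype.sum_prod_type, Finset.sum_eq_single i]
        · simp only [condMat, true_and, Pi.zero_apply]
          split_ifs with h4
          · have h5 := h2 i i.2 j h4
            rw [Finset.sum_range] at h5
            refine Eq.trans ?_ h5
            refine Finset.sum_congr rfl fun t _ => ?_
            rw [mul_comm]
          · simp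
        · intro b _ hb
          apply Finset.sum_eq_zero
          intro t _
          simp only [condMat]
          rw [if_neg, zero_mul]
          rintro ⟨h4, -⟩
          exact hb h4.symm
        · simp
      · rw [Fintype.sum_prod_type]
        simp only [condMat, Pi.zero_apply]
        have h5 := h3 t t.2
        rw [← Finset.sum_coe_sort] at h5
        refine Eq.trans ?_ h5
        refine Finset.sum_congr rfl fun i _ => ?_
        rw [Finset.sum_eq_single t]
        · simp
        · intro b _ hb
          rw [if_neg (Ne.symm hb), zero_mul]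
        · simp

omit [Fintype κ] [DecidableEq κ] in
lemma aeval_eq (g : κ → L) (r : MvPolynomial κ L) :
    MvPolynomial.aeval g r = MvPolynomial.eval g r := by
  rw [← MvPolynomial.coe_aeval_eq_eval]
  rfl

/-- openness of `Inj` -/
theorem Inj.exists_poly {q k : ℕ} {I : Finset ι} {S : ι → Finset κ} {τ : ι → ℕ} {g0 : κ → L}
    (h : Inj q k I S τ g0) : ∃ Δ : MvPolynomial κ L, MvPolynomial.eval g0 Δ ≠ 0 ∧
      ∀ g : κ → L, MvPolynomial.eval g Δ ≠ 0 → Inj q k I S τ g := by
  have hmap : ∀ g : κ → L, (condMat q k I S τ (MvPolynomial.X : κ → MvPolynomial κ L)).map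
      (MvPolynomial.aeval g) = condMat q k I S τ g := by
    intro g
    ext w v
    rw [Matrix.map_apply]
    rcases w with ⟨i, t⟩ | ⟨i, j⟩ | t
    · simp only [condMat]
      split_ifs <;> simp
    · simp only [condMat]
      split_ifs <;> simp
    · simp only [condMat]
      split_ifs <;> simp
  obtain ⟨r, hr0, hr⟩ := open_inj (L := L)
    (condMat q k I S τ (MvPolynomial.X : κ → MvPolynomial κ L)) (MvPolynomial.aeval g0) (by
      rw [hmap]
      exact (inj_iff q k I S τ g0).mp h)
  refine ⟨r, ?_, ?_⟩
  · rwa [aeval_eq] at hr0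
  · intro g hg
    rw [inj_iff, ← hmap]
    apply hr
    rwa [aeval_eq]

/-- over an infinite field `Inj` can be combined with the nonvanishing of a polynomial -/
theorem Inj.exists_and [Infinite L] {q k : ℕ} {I : Finset ι} {S : ι → Finset κ} {τ : ι → ℕ}
    {g0 : κ → L} (h : Inj q k I S τ g0) (D : MvPolynomial κ L) (hD : D ≠ 0) :
    ∃ g : κ → L, MvPolynomial.eval g D ≠ 0 ∧ Inj q k I S τ g := by
  obtain ⟨Δ, h0, h1⟩ := h.exists_poly
  have hΔ : Δ ≠ 0 := by
    rintro rfl
    simp at h0
  have hne : D * Δ ≠ 0 := mul_ne_zero hD hΔ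
  have : ∃ g : κ → L, MvPolynomial.eval g (D * Δ) ≠ 0 := by
    by_contra hcon
    push Not at hcon
    apply hne
    apply MvPolynomial.funext
    intro x
    rw [hcon x, map_zero]
  obtain ⟨g, hg⟩ := this
  rw [map_mul] at hg
  exact ⟨g, left_ne_zero_of_mul hg, h1 g (right_ne_zero_of_mul hg)⟩

end

end Pool.Agent.R558
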